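import Pool.Graph.R_seed8.W165.CE.FF

/-!
Number of points on `y² = x³ + a x + b` over the extensions of an arbitrary finite field of odd
characteristic.
-/

set_option autoImplicit false

namespace Pool.Agent.Helper13.CM

open Polynomial Finset
open Pool.Agent.H341R2.Sharp
open Pool.Agent.H82R3.EK (luc luc_eq card_points)
open W165.CE

/-- the number of affine points of `y² = x³ + a x + b` over `k` -/
noncomputable def npts {k : Type} [CommRing k] (a b : k) : ℕ :=
  Nat.card {x : k × k // x.2 ^ 2 = x.1 ^ 3 + a * x.1 + b}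

/-- the number of points over an extension -/
theorem points_ext' {F : Type} [Field F] [Finite F] (hF : ringChar F ≠ 2) (a b : F)
    (hD : 4 * a ^ 3 + 27 * b ^ 2 ≠ 0) {k : Type} [Field k] [Finite k] [Algebra F k] :
    (Nat.card k : ℤ) - npts (algebraMap F k a) (algebraMap F k b) =
      luc ((Nat.card F : ℤ) - npts a b) (Nat.card F) (Module.finrank F k) := by
  classical
  letI : Fintype F := Fintype.ofFinite F
  have key : ∀ {E : Type} [Field E] [Fintype E] [Algebra F E] [DecidableEq E],
      (Nat.card E : ℤ) - npts (algebraMap F E a) (algebraMap F E b) =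
      - T (wei a b) (Module.finrank F E) := by
    intro E _ _ _ _
    have hE : ringChar E ≠ 2 := by
      rwa [← Algebra.ringChar_eq F E]
    unfold npts
    rw [card_points hE (fun x => x ^ 3 + algebraMap F E a * x + algebraMap F E b),
      T_eq_sum (E := E) hF, Nat.card_eq_fintype_card]
    simp_rw [aeval_wei]
    ring
  letI : Fintype k := Fintype.ofFinite k
  have h1 := key (E := F)
  rw [Module.finrank_self] at h1
  simp only [Algebra.algebraMap_self, RingHom.id_apply] at h1
  rw [key (E := k), h1]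
  have hpos : 0 < Module.finrank F k := Module.finrank_pos
  obtain ⟨n, hn⟩ := Nat.exists_eq_succ_of_ne_zero hpos.ne'
  rw [hn, Nat.succ_eq_add_one, T_luc hF (wei_natDegree _ _) (wei_monic _ _) n,
    A_two hF _ _ hD, Nat.card_eq_fintype_card, neg_neg]

/-- Hasse's bound -/
theorem hasse' {k : Type} [Field k] [Finite k] (hk : ringChar k ≠ 2) (a b : k) :
    ((Nat.card k : ℤ) - npts a b) ^ 2 ≤ 4 * (Nat.card k : ℤ) := by
  classical
  letI : Fintype k := Fintype.ofFinite k
  have h := hasse hk a b
  have h1 : (0 : ℝ) ≤ Fintype.card k := Nat.cast_nonneg _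
  have h2 := pow_le_pow_left₀ (abs_nonneg _) h 2
  rw [sq_abs, mul_pow, Real.sq_sqrt h1] at h2
  have h3 : (((((Nat.card k : ℤ) - npts a b) ^ 2 : ℤ)) : ℝ) ≤ ((4 * (Nat.card k : ℤ) : ℤ) : ℝ) := by
    rw [Nat.card_eq_fintype_card]
    unfold npts
    push_cast
    push_cast at h2
    linarith
  exact_mod_cast h3

/-- isomorphic equations -/
theorem npts_twist {k : Type} [Field k] (a b c : k) (hc : c ≠ 0) :
    npts (c ^ 4 * a) (c ^ 6 * b) = npts a b := by
  have h1 : ∀ p : {p : k × k // p.2 ^ 2 = p.1 ^ 3 + a * p.1 + b},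
      (c ^ 3 * p.1.2) ^ 2 = (c ^ 2 * p.1.1) ^ 3 + c ^ 4 * a * (c ^ 2 * p.1.1) + c ^ 6 * b := by
    intro p
    have := p.2
    linear_combination c ^ 6 * this
  have h2 : ∀ p : {p : k × k // p.2 ^ 2 = p.1 ^ 3 + c ^ 4 * a * p.1 + c ^ 6 * b},
      (p.1.2 / c ^ 3) ^ 2 = (p.1.1 / c ^ 2) ^ 3 + a * (p.1.1 / c ^ 2) + b := by
    intro p
    have := p.2
    field_simp
    linear_combination this
  unfold npts
  exact (Nat.card_congr
    { toFun := fun p => ⟨(c ^ 2 * p.1.1, c ^ 3 * p.1.2), h1 p⟩
      invFun := fun p => ⟨(p.1.1 / c ^ 2, p.1.2 / c ^ 3), h2 p⟩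
      left_inv := fun p => by
        apply Subtype.ext
        refine Prod.ext ?_ ?_
        · show c ^ 2 * p.1.1 / c ^ 2 = p.1.1
          field_simp
        · show c ^ 3 * p.1.2 / c ^ 3 = p.1.2
          field_simp
      right_inv := fun p => by
        apply Subtype.ext
        refine Prod.ext ?_ ?_
        · show c ^ 2 * (p.1.1 / c ^ 2) = p.1.1
          field_simp
        · show c ^ 3 * (p.1.2 / c ^ 3) = p.1.2
          field_simp }).symm

end Pool.Agent.Helper13.CM
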