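import Pool.Graph.R_pool_sql_team_seeded_63374d34.N833.CZ.Glue
import Pool.Agent.Helper13.CM.FFx

/-!
The Hecke character of an elliptic curve over a number field `M`: definition and first properties.
-/

set_option autoImplicit false
set_option linter.unusedSectionVars false
set_option linter.style.haveILetI false

open NumberField IsDedekindDomain Complex

namespace Pool.Agent.Helper13.CM

open Pool.Agent.Y773 (TPos)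
open Pool.Agent.Y773.G (cj cj_cj cj_apply prod_cj)
open Pool.Agent.Y767 (Mq Mq_cop Mq_ne_bot Mq_cancel Cls cls cls_eq_one)
open Pool.Agent.Y773.IQ (ne_zero_of_cop cop_mono)
open Pool.Agent.N784.AD (T1 T1_one T1_tp T1_cop pi1 pi1_coe cls_card_le)
open Pool.Agent.N784.HC (Dn ph phT phT_coe CTyp coe_ne)

/-- the Hecke character of `y² = x³ + A x + B` over `M` -/
structure IsChar {M : Type} [Field M] [NumberField M] (A B : 𝓞 M) (𝔣 : Ideal (𝓞 M))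
    (Φ : Finset (M →+* ℂ)) (ψ : Ideal (𝓞 M) → ℂ) : Prop where
  typ : ∀ φ : M →+* ℂ, φ ∈ Φ ↔ (starRingEnd ℂ).comp φ ∉ Φ
  mul : ∀ 𝔞 𝔟 : Ideal (𝓞 M), IsCoprime 𝔞 𝔣 → IsCoprime 𝔟 𝔣 → ψ (𝔞 * 𝔟) = ψ 𝔞 * ψ 𝔟
  ray : ∀ x : 𝓞 M, x - 1 ∈ 𝔣 → ψ (Ideal.span {x}) = ∏ φ ∈ Φ, φ (x : M)
  count : ∀ 𝔭 : Ideal (𝓞 M), 𝔭.IsPrime → 𝔭 ≠ ⊥ → IsCoprime 𝔭 𝔣 →
    2 * (4 * A ^ 3 + 27 * B ^ 2) ∉ 𝔭 →
    (((Ideal.absNorm 𝔭 : ℤ) - (npts (Ideal.Quotient.mk 𝔭 A) (Ideal.Quotient.mk 𝔭 B) : ℤ) : ℤ) : ℂ) =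
      ψ 𝔭 + (starRingEnd ℂ) (ψ 𝔭)

section
variable {M : Type} [Field M] [NumberField M]

open Classical in
/-- the infinity type -/
noncomputable def ty (Φ : Finset (M →+* ℂ)) (φ : M →+* ℂ) : ℕ := if φ ∈ Φ then 1 else 0

lemma comp_eq_cj (φ : M →+* ℂ) : (starRingEnd ℂ).comp φ = cj φ := rfl

variable {A B : 𝓞 M} {𝔣 : Ideal (𝓞 M)} {Φ : Finset (M →+* ℂ)} {ψ : Ideal (𝓞 M) → ℂ}

lemma ty_ctyp (h : ∀ φ : M →+* ℂ, φ ∈ Φ ↔ (starRingEnd ℂ).comp φ ∉ Φ) : CTyp (ty Φ) := by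
  classical
  intro φ
  unfold ty
  by_cases h1 : φ ∈ Φ
  · right
    exact if_neg ((h φ).1 h1)
  · left
    rw [if_neg h1]

lemma ty_ne (h : ∀ φ : M →+* ℂ, φ ∈ Φ ↔ (starRingEnd ℂ).comp φ ∉ Φ) : ty Φ ≠ 0 := by
  classical
  intro h0
  obtain ⟨φ⟩ : Nonempty (M →+* ℂ) := inferInstance
  have h1 : ∀ φ : M →+* ℂ, φ ∉ Φ := by
    intro φ hφ
    have := congrFun h0 φ
    unfold ty at this
    rw [if_pos hφ] at this
    exact one_ne_zero this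
  exact h1 φ ((h φ).2 (h1 _))

/-- no real embeddings -/
lemma tpos_of_typ (h : ∀ φ : M →+* ℂ, φ ∈ Φ ↔ (starRingEnd ℂ).comp φ ∉ Φ) (x : 𝓞 M) : TPos M x := by
  intro σ
  exfalso
  have h1 : (starRingEnd ℂ).comp (Complex.ofRealHom.comp σ) = Complex.ofRealHom.comp σ := by
    ext y
    simp
  have h2 := h (Complex.ofRealHom.comp σ)
  rw [h1] at h2
  tauto

lemma ph_ty (x : M) : ph (ty Φ) x = ∏ φ ∈ Φ, (φ x / (‖φ x‖ : ℂ)) := by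
  classical
  unfold ph ty
  rw [← Finset.prod_filter_mul_prod_filter_not Finset.univ (fun φ => φ ∈ Φ)]
  have h1 : ∏ φ ∈ Finset.univ.filter (fun φ : M →+* ℂ => φ ∉ Φ),
      (φ x / (‖φ x‖ : ℂ)) ^ (if φ ∈ Φ then 1 else 0) = 1 := by
    refine Finset.prod_eq_one fun φ hφ => ?_
    rw [Finset.mem_filter] at hφ
    rw [if_neg hφ.2, pow_zero]
  rw [h1, mul_one]
  have h2 : Finset.univ.filter (fun φ : M →+* ℂ => φ ∈ Φ) = Φ := by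
    ext φ
    simp
  rw [h2]
  refine Finset.prod_congr rfl fun φ hφ => ?_
  rw [if_pos hφ, pow_one]

/-- the square of the absolute value of the product over the type is the norm -/
lemma norm_prod_sq (h : ∀ φ : M →+* ℂ, φ ∈ Φ ↔ (starRingEnd ℂ).comp φ ∉ Φ) (x : 𝓞 M) :
    ‖∏ φ ∈ Φ, φ (x : M)‖ ^ 2 = (Ideal.absNorm (Ideal.span {x}) : ℝ) := by
  classical
  have h1 : (Ideal.absNorm (Ideal.span {x}) : ℝ) = |((Algebra.norm ℚ (x : M) : ℚ) : ℝ)| := by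
    rw [Ideal.absNorm_span_singleton, ← Algebra.coe_norm_int]
    push_cast
    rw [Nat.cast_natAbs]
    push_cast
    rfl
  have h2 : |((Algebra.norm ℚ (x : M) : ℚ) : ℝ)| = ∏ φ : M →+* ℂ, ‖φ (x : M)‖ := by
    have h3 := Algebra.norm_eq_prod_embeddings ℚ ℂ (x : M)
    have h4 := congrArg norm h3
    rw [norm_prod] at h4
    have h5 : ‖(algebraMap ℚ ℂ) (Algebra.norm ℚ (x : M))‖ =
        |((Algebra.norm ℚ (x : M) : ℚ) : ℝ)| := by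
      rw [eq_ratCast, ← Complex.ofReal_ratCast, Complex.norm_real, Real.norm_eq_abs]
    rw [h5] at h4
    rw [h4]
    exact Fintype.prod_equiv (RingHom.equivRatAlgHom M ℂ).symm _ _ (fun σ => rfl)
  rw [h1, h2, norm_prod, ← Finset.prod_filter_mul_prod_filter_not Finset.univ (fun φ => φ ∈ Φ)]
  have h3 : Finset.univ.filter (fun φ : M →+* ℂ => φ ∈ Φ) = Φ := by
    ext φ
    simp
  have h4 : ∏ φ ∈ Finset.univ.filter (fun φ : M →+* ℂ => φ ∉ Φ), ‖φ (x : M)‖ =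
      ∏ φ ∈ Φ, ‖φ (x : M)‖ := by
    refine Finset.prod_bij' (fun φ _ => cj φ) (fun φ _ => cj φ) ?_ ?_ ?_ ?_ ?_
    · intro φ hφ
      rw [Finset.mem_filter] at hφ
      by_contra h5
      exact hφ.2 ((h φ).2 h5)
    · intro φ hφ
      rw [Finset.mem_filter]
      exact ⟨Finset.mem_univ _, (h φ).1 hφ⟩
    · intro φ _
      exact cj_cj φ
    · intro φ _
      exact cj_cj φ
    · intro φ _
      rw [cj_apply, RCLike.norm_conj]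
  rw [h3, h4, sq]

/-- some power of an ideal times an ideal of the ray is in the ray -/
lemma exists_pow {𝔮 : Ideal (𝓞 M)} (hbot : 𝔮 ≠ ⊥) (htop : 𝔮 ≠ ⊤) (𝔞 : Ideal (𝓞 M))
    (h𝔞 : IsCoprime 𝔞 𝔮) : ∃ (k : ℕ) (x y : 𝓞 M), 0 < k ∧ x - 1 ∈ 𝔮 ∧ y - 1 ∈ 𝔮 ∧
      Ideal.span {x} * 𝔞 ^ k = Ideal.span {y} := by
  have hfin := (cls_card_le hbot htop).1
  have hcan := Mq_cancel htop
  have h0 : 0 < orderOf (cls (pi1 htop) ⟨𝔞, h𝔞⟩) := orderOf_pos _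
  have h1 : cls (pi1 htop) ((⟨𝔞, h𝔞⟩ : Mq 𝔮) ^ orderOf (cls (pi1 htop) ⟨𝔞, h𝔞⟩)) = 1 := by
    rw [map_pow, pow_orderOf_eq_one]
  obtain ⟨a, b, hab⟩ := cls_eq_one h1
  refine ⟨orderOf (cls (pi1 htop) ⟨𝔞, h𝔞⟩), (a : 𝓞 M), (b : 𝓞 M), h0, T1_one a, T1_one b, ?_⟩
  have h2 := congrArg (fun z : Mq 𝔮 => (z : Ideal (𝓞 M))) hab
  simp only [Submonoid.coe_mul, SubmonoidClass.coe_pow, pi1_coe] at h2
  rw [← h2]

lemma IsChar.pow_eq (H : IsChar A B 𝔣 Φ ψ) {𝔞 : Ideal (𝓞 M)} (h𝔞 : IsCoprime 𝔞 𝔣)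
    (h1 : ψ 1 = 1) (k : ℕ) : ψ (𝔞 ^ k) = ψ 𝔞 ^ k := by
  induction k with
  | zero => rw [pow_zero, pow_zero, h1]
  | succ k ih =>
    rw [pow_succ, pow_succ, H.mul _ _ (IsCoprime.pow_left h𝔞) h𝔞, ih]

lemma IsChar.one (H : IsChar A B 𝔣 Φ ψ) : ψ 1 = 1 := by
  have h1 := H.ray 1 (by rw [sub_self]; exact 𝔣.zero_mem)
  rw [Ideal.span_singleton_one, ← Ideal.one_eq_top] at h1
  rw [h1]
  refine Finset.prod_eq_one fun φ _ => ?_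
  rw [show ((1 : 𝓞 M) : M) = 1 from map_one _, map_one]

/-- the absolute value -/
lemma IsChar.norm_sq (H : IsChar A B 𝔣 Φ ψ) {𝔮 : Ideal (𝓞 M)} (hq : 𝔮 ≤ 𝔣) (hbot : 𝔮 ≠ ⊥)
    (htop : 𝔮 ≠ ⊤) {𝔞 : Ideal (𝓞 M)} (h𝔞 : IsCoprime 𝔞 𝔮) :
    ‖ψ 𝔞‖ ^ 2 = (Ideal.absNorm 𝔞 : ℝ) := by
  obtain ⟨k, x, y, hk, hx, hy, hxy⟩ := exists_pow hbot htop 𝔞 h𝔞
  have h𝔣 : IsCoprime 𝔞 𝔣 := cop_mono hq h𝔞
  have hxc : IsCoprime (Ideal.span {x}) 𝔣 := Pool.Agent.Y773.IQ.cop_one (hq hx)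
  have h1 := H.mul _ _ hxc (IsCoprime.pow_left (m := k) h𝔣)
  rw [hxy, H.ray y (hq hy), H.ray x (hq hx), H.pow_eq h𝔣 H.one] at h1
  have h2 := congrArg (fun z => ‖z‖ ^ 2) h1
  simp only [norm_mul, norm_pow] at h2
  rw [mul_pow, norm_prod_sq H.typ, norm_prod_sq H.typ, ← pow_mul, mul_comm k 2, pow_mul] at h2
  have h3 := congrArg (fun I : Ideal (𝓞 M) => (Ideal.absNorm I : ℝ)) hxy
  simp only [map_mul, map_pow, Nat.cast_mul, Nat.cast_pow] at h3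
  rw [← h3] at h2
  have hx0 : (Ideal.absNorm (Ideal.span {x}) : ℝ) ≠ 0 := by
    have h4 : x ≠ 0 := ne_zero_of_cop htop (Pool.Agent.Y773.IQ.cop_one hx)
    have h5 : 0 < Ideal.absNorm (Ideal.span {x}) := Pool.Agent.Y773.IQ.absNorm_pos' (by
      rw [Ne, Ideal.span_singleton_eq_bot]
      exact h4)
    exact_mod_cast h5.ne'
  have h6 := mul_left_cancel₀ hx0 h2
  exact ((pow_left_inj₀ (by positivity) (by positivity) hk.ne').1 h6.symm)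

/-- the unitary Hecke character modulo `𝔮` -/
noncomputable def IsChar.F (H : IsChar A B 𝔣 Φ ψ) {𝔮 : Ideal (𝓞 M)} (hq : 𝔮 ≤ 𝔣) (hbot : 𝔮 ≠ ⊥)
    (htop : 𝔮 ≠ ⊤) : Mq 𝔮 →* ℂˣ where
  toFun 𝔞 := Units.mk0 (ψ (𝔞 : Ideal (𝓞 M)) / (‖ψ (𝔞 : Ideal (𝓞 M))‖ : ℂ)) (by
    have h1 := H.norm_sq hq hbot htop (Mq_cop 𝔞)
    have h2 : (0 : ℝ) < (Ideal.absNorm (𝔞 : Ideal (𝓞 M)) : ℝ) := by
      exact_mod_cast Pool.Agent.Y773.IQ.absNorm_pos' (Mq_ne_bot htop 𝔞)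
    have h3 : ‖ψ (𝔞 : Ideal (𝓞 M))‖ ≠ 0 := by
      intro h0
      rw [h0] at h1
      norm_num at h1
      rw [← h1] at h2
      norm_num at h2
    exact div_ne_zero (norm_ne_zero_iff.1 h3) (by exact_mod_cast h3))
  map_one' := by
    ext
    rw [Units.val_mk0, Units.val_one, Submonoid.coe_one, H.one]
    simp
  map_mul' 𝔞 𝔟 := by
    ext
    rw [Units.val_mk0, Units.val_mul, Units.val_mk0, Units.val_mk0, Submonoid.coe_mul,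
      H.mul _ _ (cop_mono hq (Mq_cop 𝔞)) (cop_mono hq (Mq_cop 𝔟)), norm_mul]
    push_cast
    rw [mul_div_mul_comm]

lemma IsChar.F_apply (H : IsChar A B 𝔣 Φ ψ) {𝔮 : Ideal (𝓞 M)} (hq : 𝔮 ≤ 𝔣) (hbot : 𝔮 ≠ ⊥)
    (htop : 𝔮 ≠ ⊤) (𝔞 : Mq 𝔮) : ((H.F hq hbot htop 𝔞 : ℂˣ) : ℂ) =
      ψ (𝔞 : Ideal (𝓞 M)) / (‖ψ (𝔞 : Ideal (𝓞 M))‖ : ℂ) := rfl

lemma IsChar.F_mem (H : IsChar A B 𝔣 Φ ψ) {𝔮 : Ideal (𝓞 M)} (hq : 𝔮 ≤ 𝔣) (hbot : 𝔮 ≠ ⊥)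
    (htop : 𝔮 ≠ ⊤) : H.F hq hbot htop ∈ Dn (ty Φ) htop := by
  intro x
  ext
  rw [phT_coe, H.F_apply, pi1_coe, H.ray _ (hq (T1_one x)), ph_ty, norm_prod]
  push_cast
  rw [← Finset.prod_div_distrib]

end

end Pool.Agent.Helper13.CM
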