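import Pool.Agent.Helper13.CM.Char

/-!
The Euler product over the narrow ray class field `K` of modulus `𝔮` of `M`, in terms of a Hecke
character of `M`.
-/

set_option autoImplicit false
set_option linter.unusedSectionVars false
set_option linter.style.haveILetI false

open NumberField IsDedekindDomain Complex

namespace Pool.Agent.Helper13.CM

open Pool.Agent.Y773 (TPos LI zz norm_zz_lt hasSum_log natCast_pow_cpow Ov bl bl_iff)
open Pool.Agent.Y767 (Mq Mq_cop Mq_cancel Cls cls cls_eq_one)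
open Pool.Agent.Y773.IQ (ofM' ofM'_pos ofM'_supp ne_zero_of_cop)
open Pool.Agent.N784.AD (T1 T1_cop pi1 cls_card_le)
open Pool.Agent.N784.HC (Dn Dn_card phT phT_coe ph norm_ph coe_ne)
open Pool.Agent.N784.CZ (IsRCF StSplit StLocal)
open Pool.Agent.N833.CZ (norm_Dn norm_ofM'_le hasProd_M hasProd_Mc natCast_cpow_conj bM bM_iff)
open Pool.Agent.H921R2.TatePole (below deg nm nm_eq nm_summable two_le_nm)

section
variable {M : Type} [Field M] [NumberField M] {K : Type} [Field K] [NumberField K]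

/-- the residue degree of `v` over `M` -/
noncomputable def fd (ι : 𝓞 M →+* 𝓞 K) (v : HeightOneSpectrum (𝓞 K)) : ℕ :=
  Nat.log (Ideal.absNorm (v.asIdeal.comap ι)) (Ideal.absNorm v.asIdeal)

/-- the eigenvalue of Frobenius at `v` -/
noncomputable def bet (ψ : Ideal (𝓞 M) → ℂ) (ι : 𝓞 M →+* 𝓞 K) (v : HeightOneSpectrum (𝓞 K)) : ℂ :=
  ψ (v.asIdeal.comap ι) ^ fd ι v

/-- the Euler polynomial -/
noncomputable def ep (β : ℂ) (n : ℕ) (s : ℂ) : ℂ :=
  (1 - β * (n : ℂ) ^ (-s)) * (1 - (starRingEnd ℂ) β * (n : ℂ) ^ (-s))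

lemma ep_sub_bound {β : ℂ} {n : ℕ} (hn : 2 ≤ n) (hβ : ‖β‖ ^ 2 = n) {s : ℂ}
    (hsmall : (n : ℝ) ^ (-(s.re - 1 / 2)) ≤ 1 / 6) :
    ‖(ep β n s)⁻¹ - 1‖ ≤ 6 * (n : ℝ) ^ (-(s.re - 1 / 2)) := by
  have hn0 : (0 : ℝ) < n := by exact_mod_cast (by omega : 0 < n)
  obtain ⟨w, hw⟩ : ∃ w : ℝ, w = (n : ℝ) ^ (-(s.re - 1 / 2)) := ⟨_, rfl⟩
  rw [← hw] at hsmall ⊢
  have hw0 : 0 ≤ w := by rw [hw]; positivity
  have hb : ‖β‖ = (n : ℝ) ^ (1 / 2 : ℝ) := by
    rw [← Real.sqrt_eq_rpow, ← hβ, Real.sqrt_sq (norm_nonneg _)]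
  have e1 : ‖β * (n : ℂ) ^ (-s)‖ = w := by
    rw [norm_mul, Complex.norm_natCast_cpow_of_pos (by omega), Complex.neg_re, hb, hw,
      ← Real.rpow_add hn0]
    congr 1
    ring
  have e2 : ‖(starRingEnd ℂ) β * (n : ℂ) ^ (-s)‖ = w := by
    rw [norm_mul, RCLike.norm_conj, ← norm_mul, e1]
  obtain ⟨x, hx⟩ : ∃ x : ℂ, x = β * (n : ℂ) ^ (-s) := ⟨_, rfl⟩
  obtain ⟨y, hy⟩ : ∃ y : ℂ, y = (starRingEnd ℂ) β * (n : ℂ) ^ (-s) := ⟨_, rfl⟩
  rw [← hx] at e1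
  rw [← hy] at e2
  have e3 : ep β n s = 1 + (-x - y + x * y) := by
    unfold ep
    rw [← hx, ← hy]
    ring
  obtain ⟨u, hu⟩ : ∃ u : ℂ, u = -x - y + x * y := ⟨_, rfl⟩
  rw [e3, ← hu]
  have hu1 : ‖u‖ ≤ 3 * w := by
    have h1 : ‖u‖ ≤ ‖-x - y‖ + ‖x * y‖ := by rw [hu]; exact norm_add_le _ _
    have h2 : ‖-x - y‖ ≤ ‖-x‖ + ‖y‖ := norm_sub_le _ _
    rw [norm_neg, e1, e2] at h2
    rw [norm_mul, e1, e2] at h1
    nlinarith
  have hu2 : ‖u‖ ≤ 1 / 2 := by linarith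
  have h3 : 1 / 2 ≤ ‖1 + u‖ := by
    have := norm_sub_norm_le (1 : ℂ) (-u)
    rw [sub_neg_eq_add, norm_neg, norm_one] at this
    linarith
  have hne : 1 + u ≠ 0 := by
    intro h
    rw [h, norm_zero] at h3
    linarith
  have e4 : (1 + u)⁻¹ - 1 = -u / (1 + u) := by field_simp; ring
  rw [e4, norm_div, norm_neg, div_le_iff₀ (by linarith)]
  nlinarith [norm_nonneg u]

lemma ep_ne {β : ℂ} {n : ℕ} (hn : 2 ≤ n) (hβ : ‖β‖ ^ 2 = n) {s : ℂ} (hs : 1 / 2 < s.re) :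
    ep β n s ≠ 0 := by
  have hn0 : (0 : ℝ) < n := by exact_mod_cast (by omega : 0 < n)
  have hn1 : (1 : ℝ) < n := by exact_mod_cast (by omega : 1 < n)
  have hb : ‖β‖ = (n : ℝ) ^ (1 / 2 : ℝ) := by
    rw [← Real.sqrt_eq_rpow, ← hβ, Real.sqrt_sq (norm_nonneg _)]
  have hlt : ∀ γ : ℂ, ‖γ‖ = (n : ℝ) ^ (1 / 2 : ℝ) → 1 - γ * (n : ℂ) ^ (-s) ≠ 0 := by
    intro γ hγ h0
    have h1 : γ * (n : ℂ) ^ (-s) = 1 := (sub_eq_zero.1 h0).symm
    have h2 := congrArg norm h1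
    rw [norm_mul, Complex.norm_natCast_cpow_of_pos (by omega), Complex.neg_re, hγ,
      ← Real.rpow_add hn0, norm_one] at h2
    have h3 := Real.rpow_lt_one_of_one_lt_of_neg hn1 (by linarith : 1 / 2 + -s.re < 0)
    rw [h2] at h3
    exact lt_irrefl _ h3
  unfold ep
  exact mul_ne_zero (hlt β hb) (hlt _ (by rw [RCLike.norm_conj]; exact hb))

lemma ep_diff (β : ℂ) {n : ℕ} (hn : 2 ≤ n) : Differentiable ℂ (ep β n) := by
  intro s
  have hn0 : (n : ℂ) ≠ 0 := Nat.cast_ne_zero.2 (by omega)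
  unfold ep
  have h1 : DifferentiableAt ℂ (fun s : ℂ => (n : ℂ) ^ (-s)) s :=
    (differentiableAt_id.neg).const_cpow (Or.inl hn0)
  exact ((differentiableAt_const _).sub ((differentiableAt_const _).mul h1)).mul
    ((differentiableAt_const _).sub ((differentiableAt_const _).mul h1))

lemma ep_eq (β : ℂ) {n : ℕ} (hn : 2 ≤ n) (hβ : ‖β‖ ^ 2 = n) (s : ℂ) :
    ep β n s = 1 - (β + (starRingEnd ℂ) β) * (n : ℂ) ^ (-s) + (n : ℂ) ^ (1 - 2 * s) := by
  have e1 : (n : ℂ) ^ (1 - 2 * s) = n * ((n : ℂ) ^ (-s)) ^ 2 :=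
    Pool.Agent.H82R3.EK.prime_cpow n (by omega) s
  have e2 : β * (starRingEnd ℂ) β = n := by
    rw [Complex.mul_conj, Complex.normSq_eq_norm_sq, hβ]
    simp
  unfold ep
  rw [e1, ← e2]
  ring

end

section
variable {M : Type} [Field M] [NumberField M] {K : Type} [Field K] [NumberField K]
  {A B : 𝓞 M} {𝔣 : Ideal (𝓞 M)} {Φ : Finset (M →+* ℂ)} {ψ : Ideal (𝓞 M) → ℂ}

lemma fd_eq {ι : 𝓞 M →+* 𝓞 K} {v : HeightOneSpectrum (𝓞 K)} {f : ℕ}
    (h : Ideal.absNorm v.asIdeal = Ideal.absNorm (v.asIdeal.comap ι) ^ f) : fd ι v = f := by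
  have h1 : 1 < Ideal.absNorm (v.asIdeal.comap ι) := by
    have h2 := two_le_nm v
    unfold nm at h2
    rw [h] at h2
    by_contra h3
    have h4 : Ideal.absNorm (v.asIdeal.comap ι) = 0 ∨ Ideal.absNorm (v.asIdeal.comap ι) = 1 := by
      omega
    rcases h4 with h4 | h4
    · rw [h4] at h2
      have : (0 : ℕ) ^ f ≤ 1 := by
        rcases Nat.eq_zero_or_pos f with h5 | h5
        · rw [h5]; norm_num
        · rw [zero_pow h5.ne']; norm_num
      omega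
    · rw [h4, one_pow] at h2
      omega
  unfold fd
  rw [h, Nat.log_pow h1]

/-- the local computation: value of the Euler factor above `𝔭` -/
lemma ep_bet {ι : 𝓞 M →+* 𝓞 K} {v : HeightOneSpectrum (𝓞 K)} {𝔭 : Ideal (𝓞 M)}
    (hv : v.asIdeal.comap ι = 𝔭) {f : ℕ}
    (h : Ideal.absNorm v.asIdeal = Ideal.absNorm 𝔭 ^ f) (s : ℂ) :
    ep (bet ψ ι v) (Ideal.absNorm v.asIdeal) s =
      (1 - (ψ 𝔭 * (Ideal.absNorm 𝔭 : ℂ) ^ (-s)) ^ f) *
      (1 - ((starRingEnd ℂ) (ψ 𝔭) * (Ideal.absNorm 𝔭 : ℂ) ^ (-s)) ^ f) := by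
  have h1 : fd ι v = f := fd_eq (by rw [hv]; exact h)
  unfold ep bet
  rw [hv, h1, h, map_pow, Pool.Agent.Y773.natCast_pow_cpow, mul_pow, mul_pow]

end

theorem glue (h1 : StSplit) (h3 : StLocal) {M : Type} [Field M] [NumberField M]
    {A B : 𝓞 M} {𝔣 : Ideal (𝓞 M)} {Φ : Finset (M →+* ℂ)} {ψ : Ideal (𝓞 M) → ℂ}
    (HC : IsChar A B 𝔣 Φ ψ) {𝔮 : Ideal (𝓞 M)} (hq : 𝔮 ≤ 𝔣) (hbot : 𝔮 ≠ ⊥) (htop : 𝔮 ≠ ⊤)
    {K : Type} [Field K] [NumberField K] (ι : 𝓞 M →+* 𝓞 K)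
    (art : Ideal (𝓞 M) → (𝓞 K ≃+* 𝓞 K)) (H : IsRCF 𝔮 K ι art) :
    (∀ v : HeightOneSpectrum (𝓞 K), ¬ 𝔮.map ι ≤ v.asIdeal → IsCoprime (v.asIdeal.comap ι) 𝔮 ∧
      ‖bet ψ ι v‖ ^ 2 = (Ideal.absNorm v.asIdeal : ℝ) ∧
      Ideal.absNorm v.asIdeal = Ideal.absNorm (v.asIdeal.comap ι) ^ fd ι v) ∧
    ∀ (s : ℂ) (_ : 3 / 2 < s.re), HasProd (open Classical in fun v : HeightOneSpectrum (𝓞 K) =>
      if 𝔮.map ι ≤ v.asIdeal then 1 else (ep (bet ψ ι v) (Ideal.absNorm v.asIdeal) s)⁻¹)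
      (∏ᶠ F ∈ Dn (ty Φ) htop, (LI (ofM' htop F) (s - 1 / 2) *
        (starRingEnd ℂ) (LI (ofM' htop F) ((starRingEnd ℂ) s - 1 / 2)))) := by
  classical
  set F₁ := HC.F hq hbot htop with hF₁def
  have hF₁ : F₁ ∈ Dn (ty Φ) htop := HC.F_mem hq hbot htop
  have hfin : (Dn (ty Φ) htop).Finite := (Dn_card hbot htop hF₁).1
  have hcfin := (cls_card_le hbot htop).1
  have hbc : ∀ v : HeightOneSpectrum (𝓞 K), ¬ 𝔮.map ι ≤ v.asIdeal →
      IsCoprime (v.asIdeal.comap ι) 𝔮 := by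
    intro v hv
    have hb := (bM ι v).2
    have hpr : (v.asIdeal.comap ι).IsPrime := Ideal.isPrime_of_prime hb
    have hmax : (v.asIdeal.comap ι).IsMaximal := hpr.isMaximal hb.ne_zero
    rw [Ideal.isCoprime_iff_sup_eq]
    by_contra h5
    apply hv
    rw [Ideal.map_le_iff_le_comap, hmax.eq_of_le h5 le_sup_left]
    exact le_sup_right
  have hmapcomap : ∀ v : HeightOneSpectrum (𝓞 K), (v.asIdeal.comap ι).map ι ≤ v.asIdeal :=
    fun v => Ideal.map_comap_le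
  have hloc0 : ∀ v : HeightOneSpectrum (𝓞 K), ¬ 𝔮.map ι ≤ v.asIdeal →
      IsCoprime (v.asIdeal.comap ι) 𝔮 ∧
      ‖bet ψ ι v‖ ^ 2 = (Ideal.absNorm v.asIdeal : ℝ) ∧
      Ideal.absNorm v.asIdeal = Ideal.absNorm (v.asIdeal.comap ι) ^ fd ι v := by
    intro v hv
    have hc := hbc v hv
    have hb := (bM ι v).2
    have hpr : (v.asIdeal.comap ι).IsPrime := Ideal.isPrime_of_prime hb
    obtain ⟨hN, -⟩ := h1 M 𝔮 hbot htop K ι art H _ hpr hb.ne_zero hc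
    have h4 := hN v (hmapcomap v)
    have h5 := fd_eq h4
    rw [← h5] at h4
    refine ⟨hc, ?_, h4⟩
    unfold bet
    rw [norm_pow, ← pow_mul, mul_comm, pow_mul, HC.norm_sq hq hbot htop hc, h4]
    push_cast
    rfl
  refine ⟨hloc0, fun s hs => ?_⟩
  have hre : 1 < (s - 1 / 2).re := by
    have : (s - 1 / 2).re = s.re - 1 / 2 := by simp
    rw [this]; linarith
  have hre' : 1 < ((starRingEnd ℂ) s - 1 / 2).re := by
    have : ((starRingEnd ℂ) s - 1 / 2).re = s.re - 1 / 2 := by simp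
    rw [this]; linarith
  have hs' : 1 / 2 < s.re := by linarith
  -- the product over the characters
  have hP : HasProd (fun 𝔭 : {𝔭 : Ideal (𝓞 M) // Prime 𝔭} => ∏ᶠ F ∈ Dn (ty Φ) htop,
      ((1 - zz (ofM' htop F) (s - 1 / 2) 𝔭)⁻¹ *
        (starRingEnd ℂ) (1 - zz (ofM' htop F) ((starRingEnd ℂ) s - 1 / 2) 𝔭)⁻¹))
      (∏ᶠ F ∈ Dn (ty Φ) htop, (LI (ofM' htop F) (s - 1 / 2) *
        (starRingEnd ℂ) (LI (ofM' htop F) ((starRingEnd ℂ) s - 1 / 2)))) := by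
    simp_rw [finprod_mem_eq_finite_toFinset_prod _ hfin]
    apply hasProd_prod
    intro F hF
    rw [Set.Finite.mem_toFinset] at hF
    have hF' := norm_ofM'_le hbot htop hF
    exact (hasProd_M hF' hre).mul (hasProd_Mc hF' hre')
  -- the local identity
  have hloc : ∀ 𝔭 : {𝔭 : Ideal (𝓞 M) // Prime 𝔭},
      HasProd (fun v : {v : HeightOneSpectrum (𝓞 K) // bM ι v = 𝔭} =>
        if 𝔮.map ι ≤ v.1.asIdeal then 1 else (ep (bet ψ ι v.1) (Ideal.absNorm v.1.asIdeal) s)⁻¹)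
      (∏ᶠ F ∈ Dn (ty Φ) htop,
      ((1 - zz (ofM' htop F) (s - 1 / 2) 𝔭)⁻¹ *
        (starRingEnd ℂ) (1 - zz (ofM' htop F) ((starRingEnd ℂ) s - 1 / 2) 𝔭)⁻¹)) := by
    intro 𝔭
    have hpr : 𝔭.1.IsPrime := Ideal.isPrime_of_prime 𝔭.2
    have hmax : 𝔭.1.IsMaximal := hpr.isMaximal 𝔭.2.ne_zero
    by_cases hc : IsCoprime 𝔭.1 𝔮
    · -- good primes
      obtain ⟨hN, hcard⟩ := h1 M 𝔮 hbot htop K ι art H 𝔭.1 hpr 𝔭.2.ne_zero hc
      set f := orderOf (cls (pi1 htop) ⟨𝔭.1, hc⟩) with hf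
      have hf0 : 0 < f := orderOf_pos _
      have hcl0 : 0 < Nat.card (Cls (pi1 htop)) := Nat.card_pos
      have hv0 : Nat.card {v : HeightOneSpectrum (𝓞 K) // 𝔭.1.map ι ≤ v.asIdeal} ≠ 0 := by
        intro h0
        rw [h0, zero_mul] at hcard
        omega
      -- the value of the local factor at one place above
      have hval : ∀ v : {v : HeightOneSpectrum (𝓞 K) // bM ι v = 𝔭},
          (if 𝔮.map ι ≤ v.1.asIdeal then 1 else
            (ep (bet ψ ι v.1) (Ideal.absNorm v.1.asIdeal) s)⁻¹) =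
          ((1 - (ψ 𝔭.1 * (Ideal.absNorm 𝔭.1 : ℂ) ^ (-s)) ^ f) *
            (1 - ((starRingEnd ℂ) (ψ 𝔭.1) * (Ideal.absNorm 𝔭.1 : ℂ) ^ (-s)) ^ f))⁻¹ := by
        rintro ⟨v, hv⟩
        have hv' : v.asIdeal.comap ι = 𝔭.1 := congrArg Subtype.val hv
        rw [bM_iff] at hv
        have h4 : ¬ 𝔮.map ι ≤ v.asIdeal := by
          intro h5
          have h6 : (𝔭.1 ⊔ 𝔮).map ι ≤ v.asIdeal := by
            rw [Ideal.map_sup]
            exact sup_le hv h5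
          rw [Ideal.isCoprime_iff_sup_eq.1 hc, Ideal.map_top] at h6
          exact v.isPrime.ne_top (top_le_iff.1 h6)
        change (if 𝔮.map ι ≤ v.asIdeal then 1 else
          (ep (bet ψ ι v) (Ideal.absNorm v.asIdeal) s)⁻¹) = _
        rw [if_neg h4, ep_bet hv' (hN v hv) s]
      have hcard' : Nat.card {v : HeightOneSpectrum (𝓞 K) // bM ι v = 𝔭} =
          Nat.card (Cls (pi1 htop)) / f := by
        have h4 : Nat.card {v : HeightOneSpectrum (𝓞 K) // bM ι v = 𝔭} =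
            Nat.card {v : HeightOneSpectrum (𝓞 K) // 𝔭.1.map ι ≤ v.asIdeal} :=
          Nat.card_congr (Equiv.subtypeEquivRight fun v => bM_iff v 𝔭)
        rw [h4, ← hcard, Nat.mul_div_cancel _ hf0]
      have hfinv : Finite {v : HeightOneSpectrum (𝓞 K) // bM ι v = 𝔭} := by
        have : Finite {v : HeightOneSpectrum (𝓞 K) // 𝔭.1.map ι ≤ v.asIdeal} :=
          Nat.finite_of_card_ne_zero hv0
        exact Finite.of_equiv _ (Equiv.subtypeEquivRight fun v => bM_iff v 𝔭).symm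
      have hft := Fintype.ofFinite {v : HeightOneSpectrum (𝓞 K) // bM ι v = 𝔭}
      have hprod := hasProd_fintype (fun v : {v : HeightOneSpectrum (𝓞 K) // bM ι v = 𝔭} =>
        if 𝔮.map ι ≤ v.1.asIdeal then 1 else (ep (bet ψ ι v.1) (Ideal.absNorm v.1.asIdeal) s)⁻¹)
      have hval2 : (∏ v : {v : HeightOneSpectrum (𝓞 K) // bM ι v = 𝔭},
          (if 𝔮.map ι ≤ v.1.asIdeal then 1 else
            (ep (bet ψ ι v.1) (Ideal.absNorm v.1.asIdeal) s)⁻¹)) =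
          (((1 - (ψ 𝔭.1 * (Ideal.absNorm 𝔭.1 : ℂ) ^ (-s)) ^ f) *
            (1 - ((starRingEnd ℂ) (ψ 𝔭.1) * (Ideal.absNorm 𝔭.1 : ℂ) ^ (-s)) ^ f))⁻¹) ^
            (Nat.card (Cls (pi1 htop)) / f) := by
        rw [Finset.prod_congr rfl (fun v _ => hval v), Finset.prod_const, Finset.card_univ,
          ← Nat.card_eq_fintype_card, hcard']
      rw [hval2] at hprod
      -- the product over the characters
      have hn0 : (0 : ℝ) < (Ideal.absNorm 𝔭.1 : ℝ) := by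
        exact_mod_cast Pool.Agent.Y773.IQ.absNorm_pos' 𝔭.2.ne_zero
      have hnc : ((Ideal.absNorm 𝔭.1 : ℕ) : ℂ) ≠ 0 := by exact_mod_cast hn0.ne'
      have hnsq := HC.norm_sq hq hbot htop hc
      have hnorm1 : ((‖ψ 𝔭.1‖ : ℝ) : ℂ) = ((Ideal.absNorm 𝔭.1 : ℕ) : ℂ) ^ ((1 / 2 : ℂ)) := by
        have h5 : ‖ψ 𝔭.1‖ = (Ideal.absNorm 𝔭.1 : ℝ) ^ (1 / 2 : ℝ) := by
          rw [← Real.sqrt_eq_rpow, ← hnsq, Real.sqrt_sq (norm_nonneg _)]
        rw [h5, Complex.ofReal_cpow hn0.le]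
        push_cast
        rfl
      have hψ0 : ((‖ψ 𝔭.1‖ : ℝ) : ℂ) ≠ 0 := by
        rw [hnorm1]
        intro h5
        rw [Complex.cpow_eq_zero_iff] at h5
        exact hnc h5.1
      have hside : ∀ w : ℂ, 3 / 2 < w.re → ∏ᶠ F ∈ Dn (ty Φ) htop,
          (1 - zz (ofM' htop F) (w - 1 / 2) 𝔭) =
          (1 - (ψ 𝔭.1 * (Ideal.absNorm 𝔭.1 : ℂ) ^ (-w)) ^ f) ^
            (Nat.card (Cls (pi1 htop)) / f) := by
        intro w hw
        have hnorm : ‖((Ideal.absNorm 𝔭.1 : ℕ) : ℂ) ^ (-(w - 1 / 2))‖ < 1 := by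
          have h4 := norm_zz_lt (ψ := ofM' htop F₁) (norm_ofM'_le hbot htop hF₁)
            (s := w - 1 / 2) (by
              have : (w - 1 / 2).re = w.re - 1 / 2 := by simp
              rw [this]; linarith) 𝔭.2
          unfold zz at h4
          rw [norm_mul, ofM'_pos htop F₁ hc, norm_Dn hbot htop hF₁, one_mul] at h4
          exact h4
        have h4 := h3 M (ty Φ) 𝔮 hbot htop F₁ hF₁ ⟨𝔭.1, hc⟩
          (((Ideal.absNorm 𝔭.1 : ℕ) : ℂ) ^ (-(w - 1 / 2))) hnorm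
        have h5 : ((F₁ ⟨𝔭.1, hc⟩ : ℂˣ) : ℂ) * (((Ideal.absNorm 𝔭.1 : ℕ) : ℂ) ^ (-(w - 1 / 2))) =
            ψ 𝔭.1 * (Ideal.absNorm 𝔭.1 : ℂ) ^ (-w) := by
          have e1 : ((Ideal.absNorm 𝔭.1 : ℕ) : ℂ) ^ (-(w - 1 / 2)) =
              ((Ideal.absNorm 𝔭.1 : ℕ) : ℂ) ^ (-w) * ((Ideal.absNorm 𝔭.1 : ℕ) : ℂ) ^ ((1 / 2 : ℂ)) := by
            rw [← Complex.cpow_add _ _ hnc]
            congr 1
            ring
          rw [hF₁def, HC.F_apply, e1, ← hnorm1]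
          field_simp
        rw [← hf, h5] at h4
        rw [← h4]
        refine finprod_mem_congr rfl fun F hF => ?_
        unfold zz
        rw [ofM'_pos htop F hc]
      have hA := hside s hs
      have hB := hside ((starRingEnd ℂ) s) (by rw [Complex.conj_re]; exact hs)
      have hC := congrArg (starRingEnd ℂ) hB
      rw [map_pow, map_sub, map_one, map_pow, map_mul, natCast_cpow_conj, map_neg,
        Complex.conj_conj] at hC
      rw [finprod_mem_eq_finite_toFinset_prod _ hfin] at hA hC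
      rw [finprod_mem_eq_finite_toFinset_prod _ hfin]
      rw [map_prod] at hC
      have hD : ∏ F ∈ hfin.toFinset, ((1 - zz (ofM' htop F) (s - 1 / 2) 𝔭)⁻¹ *
          (starRingEnd ℂ) (1 - zz (ofM' htop F) ((starRingEnd ℂ) s - 1 / 2) 𝔭)⁻¹) =
          (((1 - (ψ 𝔭.1 * (Ideal.absNorm 𝔭.1 : ℂ) ^ (-s)) ^ f) *
            (1 - ((starRingEnd ℂ) (ψ 𝔭.1) * (Ideal.absNorm 𝔭.1 : ℂ) ^ (-s)) ^ f))⁻¹) ^
            (Nat.card (Cls (pi1 htop)) / f) := by
        rw [Finset.prod_mul_distrib, Finset.prod_inv_distrib, hA]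
        simp_rw [map_inv₀]
        rw [Finset.prod_inv_distrib, hC, ← inv_pow, ← inv_pow, ← mul_pow, ← mul_inv]
      rw [hD]
      exact hprod
    · -- bad primes
      have hle2 : 𝔮 ≤ 𝔭.1 := by
        by_contra h4
        apply hc
        rw [Ideal.isCoprime_iff_sup_eq]
        by_contra h5
        apply h4
        rw [hmax.eq_of_le h5 le_sup_left]
        exact le_sup_right
      have h4 : ∀ v : {v : HeightOneSpectrum (𝓞 K) // bM ι v = 𝔭},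
          (if 𝔮.map ι ≤ v.1.asIdeal then 1 else
            (ep (bet ψ ι v.1) (Ideal.absNorm v.1.asIdeal) s)⁻¹) = 1 := by
        rintro ⟨v, hv⟩
        rw [bM_iff] at hv
        rw [if_pos]
        exact (Ideal.map_mono hle2).trans hv
      have h5 : ∏ᶠ F ∈ Dn (ty Φ) htop,
          ((1 - zz (ofM' htop F) (s - 1 / 2) 𝔭)⁻¹ *
          (starRingEnd ℂ) (1 - zz (ofM' htop F) ((starRingEnd ℂ) s - 1 / 2) 𝔭)⁻¹) = 1 := by
        apply finprod_mem_eq_one_of_forall_eq_one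
        intro F hF
        have h6 : ofM' htop F 𝔭.1 = 0 := by
          by_contra h7
          exact hc ((ofM'_supp htop F 𝔭.1).1 h7)
        unfold zz
        rw [h6, zero_mul, zero_mul, sub_zero, inv_one, map_one, one_mul]
      rw [h5]
      simp_rw [h4]
      exact hasProd_one
  -- multipliability
  have h4 : Multipliable (fun v : HeightOneSpectrum (𝓞 K) =>
      if 𝔮.map ι ≤ v.asIdeal then 1 else (ep (bet ψ ι v) (Ideal.absNorm v.asIdeal) s)⁻¹) := by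
    have hsum := nm_summable (K := K) (x := s.re - 1 / 2) (by linarith)
    have h5 : Summable (fun v : HeightOneSpectrum (𝓞 K) =>
        ‖(if 𝔮.map ι ≤ v.asIdeal then 1 else
          (ep (bet ψ ι v) (Ideal.absNorm v.asIdeal) s)⁻¹) - 1‖) := by
      refine Summable.of_norm_bounded_eventually (hsum.mul_left 6) ?_
      have h6 := hsum.tendsto_cofinite_zero.eventually (Iio_mem_nhds (by norm_num : (0 : ℝ) < 1 / 6))
      filter_upwards [h6] with v hv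
      rw [norm_norm]
      split_ifs with hiq
      · rw [sub_self, norm_zero]
        positivity
      · exact ep_sub_bound (two_le_nm v) (hloc0 v hiq).2.1 (le_of_lt hv)
    have h7 := multipliable_one_add_of_summable h5
    refine h7.congr (fun v => ?_)
    ring
  rw [← (Equiv.sigmaFiberEquiv (bM ι)).hasProd_iff]
  refine HasProd.sigma_of_hasProd hP (fun 𝔭 => hloc 𝔭) ?_
  exact (Equiv.sigmaFiberEquiv (bM ι)).multipliable_iff.2 h4

end Pool.Agent.Helper13.CM
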