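import Pool.Graph.R_pool_sql_team_seeded_63374d34.N784.CZ.Crx
import Pool.Agent.Helper13.CM.Glue

/-!
The zeros of `L(E/K, s)` on the line `Re s = 1`, `K` a narrow ray class field of `M`, for a curve whose
L-function over `M` comes from a Hecke character.
-/

set_option autoImplicit false
set_option linter.unusedSectionVars false

open NumberField Complex Filter Topology Set IsDedekindDomain

namespace Pool.Agent.Helper13.CM

open Pool.Agent.Y773 (TPos LI)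
open Pool.Agent.Y767 (Mq Cls cls eq_of_LI)
open Pool.Agent.Y773.IQ (ofM' tM LL LL_eq absNorm_pos')
open Pool.Agent.N784.HC
open Pool.Agent.N784.AD (pi1 Un one_le_Un cls_card_le hK)
open Pool.Agent.N833.CZ (norm_ofM'_le)
open Pool.Agent.N786 (kc)
open H370 (zset mult NN Nd Ns)
open Pool.Agent.H82R3.EK (cnt cnt_eq_sum cnt_prod NN_eq Ns_le strip line)
open Pool.Agent.W164.RC (eulerFactor order_shift inj_shift)
open Pool.Agent.N784.CZ

/-- **zeros of the L-function over ray class fields** -/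
theorem core (M : Type) [Field M] [NumberField M] {A B : 𝓞 M} {𝔣 : Ideal (𝓞 M)}
    {Φ : Finset (M →+* ℂ)} {ψ : Ideal (𝓞 M) → ℂ} (HC : IsChar A B 𝔣 Φ ψ)
    {a e a₂ : ℝ} (ha1 : a < 1) (he : 0 < e)
    (hk : kc 1.414 (1 - a) + e ≤ 1.3275) (h2a : a₂ ≤ a) (h23 : a₂ ≤ 1 / 3)
    (ε η : ℝ) (hε : 0 < ε) (hη : 0 < η) : ∃ δ X₀ : ℝ, 0 < δ ∧
    ∀ (𝔮 : Ideal (𝓞 M)), 𝔮 ≠ ⊥ → 𝔮 ≤ 𝔣 → X₀ ≤ (Ideal.absNorm 𝔮 : ℝ) →
      (Un 𝔮 : ℝ) ≤ (Ideal.absNorm 𝔮 : ℝ) ^ δ →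
    ∀ (K : Type) [Field K] [NumberField K] (ι : 𝓞 M →+* 𝓞 K)
      (art : Ideal (𝓞 M) → (𝓞 K ≃+* 𝓞 K)), IsRCF 𝔮 K ι art →
    ∃ H : ℂ → ℂ, Differentiable ℂ H ∧
      (∀ s : ℂ, 3 / 2 < s.re → HasProd (open Classical in fun v : HeightOneSpectrum (𝓞 K) =>
        if 𝔮.map ι ≤ v.asIdeal then 1 else
          (ep (bet ψ ι v) (Ideal.absNorm v.asIdeal) s)⁻¹) (H s)) ∧
      ∀ T : ℝ, (Ideal.absNorm 𝔮 : ℝ) ^ η ≤ T →
        ((Ideal.absNorm 𝔮 : ℝ) * T ^ Module.finrank ℚ M) ^ (1 - a₂) ≤ (Ideal.absNorm 𝔮 : ℝ) →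
        {s : ℂ | s ∈ hp T ∧ H s = 0}.Finite ∧
        (1 - ε) * ((Module.finrank ℚ K : ℝ) / (Module.finrank ℚ M : ℝ) * (T / Real.pi *
          Real.log ((Ideal.absNorm 𝔮 : ℝ) * T ^ Module.finrank ℚ M))) ≤ (cnt H (hp T) : ℝ) ∧
        0.6725 * (cnt H (hp T) : ℝ) ≤ (cnt H {s : ℂ | s ∈ hp T ∧ s.re = 1} : ℝ) := by
  classical
  obtain ⟨δ, X₀, hδ, H0⟩ := prod_core Pool.Agent.N603.CZ.t_gro Pool.Agent.N768.CZ.t_cru M
    (ty_ctyp HC.typ) (ty_ne HC.typ) ha1 he hk h2a h23 ε η hε hη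
  refine ⟨δ, max X₀ 2, hδ, fun 𝔮 hbot hle hX hU K _ _ ι art hK => ?_⟩
  have htop : 𝔮 ≠ ⊤ := by
    rintro rfl
    rw [Ideal.absNorm_top] at hX
    have := (le_max_right X₀ 2).trans hX
    norm_num at this
  have hX : X₀ ≤ (Ideal.absNorm 𝔮 : ℝ) := (le_max_left _ _).trans hX
  have hhn : CTyp (ty Φ) := ty_ctyp HC.typ
  have hhn0 : ty Φ ≠ 0 := ty_ne HC.typ
  obtain ⟨F₁, hF₁⟩ : ∃ F₁ : Mq 𝔮 →* ℂˣ, F₁ ∈ Dn (ty Φ) htop :=
    ⟨HC.F hle hbot htop, HC.F_mem hle hbot htop⟩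
  have hfin : (Dn (ty Φ) htop).Finite := (Dn_card_le (n := ty Φ) hbot htop).1
  have hex : ∀ F : Mq 𝔮 →* ℂˣ, ∃ L : ℂ → ℂ, F ∈ Dn (ty Φ) htop → (Differentiable ℂ L ∧
      ∀ s : ℂ, 1 < s.re → L s = LI (ofM' htop F) s) := by
    intro F
    by_cases h : F ∈ Dn (ty Φ) htop
    · obtain ⟨L, h1, h2⟩ := ent_of hhn hhn0 hbot htop h
      exact ⟨L, fun _ => ⟨h1, h2⟩⟩
    · exact ⟨fun _ => 0, fun h' => absurd h' h⟩
  choose L hL using hex
  obtain ⟨J, hJ⟩ : ∃ J : Finset (Mq 𝔮 →* ℂˣ), J = hfin.toFinset := ⟨_, rfl⟩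
  have hJm : ∀ F, F ∈ J ↔ F ∈ Dn (ty Φ) htop := fun F => by rw [hJ, Set.Finite.mem_toFinset]
  obtain ⟨G, hG⟩ : ∃ G : ℂ → ℂ, G = fun s => ∏ F ∈ J, (L F s * cf (L F) s) := ⟨_, rfl⟩
  have hGd : Differentiable ℂ G := by
    rw [hG]
    exact Differentiable.fun_finsetProd fun F hF =>
      (hL F ((hJm F).mp hF)).1.mul (cf_diff (hL F ((hJm F).mp hF)).1)
  have hGne : ∀ s : ℂ, 1 ≤ s.re → G s ≠ 0 := by
    intro s hs
    rw [hG]
    simp only
    rw [Finset.prod_ne_zero_iff]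
    intro F hF
    have hF' := (hJm F).mp hF
    refine mul_ne_zero (nv_Dn hhn hhn0 hbot htop hF' (hL F hF').1 (hL F hF').2 hs) ?_
    unfold cf
    rw [map_ne_zero]
    exact nv_Dn hhn hhn0 hbot htop hF' (hL F hF').1 (hL F hF').2 (by rw [Complex.conj_re]; exact hs)
  have hHd : Differentiable ℂ (fun s => G (s - 1 / 2)) := hGd.comp (differentiable_id.sub_const _)
  refine ⟨fun s => G (s - 1 / 2), hHd, ?_, ?_⟩
  · intro s hs
    have h1 := (glue Pool.Agent.N400.CZ.t_split Pool.Agent.N717.CZ.t_local HC hle hbot htop ι art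
      hK).2 s hs
    have h2 : (fun s => G (s - 1 / 2)) s =
        ∏ᶠ F ∈ Dn (ty Φ) htop, (LI (ofM' htop F) (s - 1 / 2) *
        (starRingEnd ℂ) (LI (ofM' htop F) ((starRingEnd ℂ) s - 1 / 2))) := by
      rw [finprod_mem_eq_finite_toFinset_prod _ hfin, hG, ← hJ]
      refine Finset.prod_congr rfl fun F hF => ?_
      have hF' := (hJm F).mp hF
      have e1 : 1 < (s - 1 / 2).re := by
        have : (s - 1 / 2).re = s.re - 1 / 2 := by simp
        rw [this]; linarith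
      have e3 : (starRingEnd ℂ) (s - 1 / 2) = (starRingEnd ℂ) s - 1 / 2 := by
        rw [map_sub, map_div₀, map_one, map_ofNat]
      have e2 : 1 < ((starRingEnd ℂ) s - 1 / 2).re := by
        rw [← e3, Complex.conj_re]; exact e1
      unfold cf
      rw [e3, (hL F hF').2 _ e1, (hL F hF').2 _ e2]
    rw [h2]
    exact h1
  · intro T hT hTh
    obtain ⟨hT1, c1, c2⟩ := H0 𝔮 hbot htop hX ⟨F₁, hF₁⟩ hU L hL J hJm T hT hTh
    rw [← hG] at c1 c2
    have hre : ∀ s : ℂ, (s - 1 / 2).re = s.re - 1 / 2 := fun s => by simp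
    have him : ∀ s : ℂ, (s - 1 / 2).im = s.im := fun s => by simp
    have k1 : cnt (fun s => G (s - 1 / 2)) (hp T) = cnt G (strip T (2 * T)) := by
      apply cnt_shift
      intro s
      refine ⟨fun ⟨⟨b1, b2, b3⟩, b4⟩ => ⟨⟨?_, ?_, ?_, ?_⟩, b4⟩, fun ⟨⟨b1, b2, b3, b4⟩, b5⟩ =>
        ⟨⟨?_, ?_, ?_⟩, b5⟩⟩
      · rw [hre]; linarith
      · by_contra hcon
        exact hGne _ (not_lt.mp hcon) b4
      · rw [him]; exact b2
      · rw [him]; exact b3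
      · rw [hre] at b1; linarith
      · rw [him] at b3; exact b3
      · rw [him] at b4; exact b4
    have k2 : cnt (fun s => G (s - 1 / 2)) {s : ℂ | s ∈ hp T ∧ s.re = 1} =
        cnt G (line T (2 * T)) := by
      apply cnt_shift
      intro s
      refine ⟨fun ⟨⟨⟨b1, b2, b3⟩, b5⟩, b4⟩ => ⟨⟨?_, ?_, ?_⟩, b4⟩, fun ⟨⟨b1, b2, b3⟩, b5⟩ =>
        ⟨⟨⟨?_, ?_, ?_⟩, ?_⟩, b5⟩⟩
      · rw [hre, b5]; norm_num
      · rw [him]; exact b2
      · rw [him]; exact b3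
      · rw [hre] at b1; linarith
      · rw [him] at b2; exact b2
      · rw [him] at b3; exact b3
      · rw [hre] at b1; linarith
    have hcard : (Nat.card (Cls (pi1 htop)) : ℝ) =
        (Module.finrank ℚ K : ℝ) / (Module.finrank ℚ M : ℝ) := by
      have h7 := Pool.Agent.N134.CZ.t_deg M 𝔮 hbot htop K ι art hK
      have h8 : 0 < Module.finrank ℚ M := Module.finrank_pos
      have h9 : (0 : ℝ) < Module.finrank ℚ M := by exact_mod_cast h8
      rw [h7]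
      push_cast
      field_simp
    refine ⟨?_, ?_, ?_⟩
    · have h1 : ∀ s ∈ {s : ℂ | s ∈ hp T ∧ G (s - 1 / 2) = 0}, ‖s‖ ≤ 2 + (|T| + |2 * T|) := by
        rintro s ⟨⟨b1, b2, b3⟩, b4⟩
        refine (Complex.norm_le_abs_re_add_abs_im s).trans (add_le_add ?_ ?_)
        · rw [abs_of_pos (by linarith)]
          by_contra hcon
          refine hGne (s - 1 / 2) ?_ b4
          rw [hre]
          linarith [not_le.mp hcon]
        · rw [abs_of_pos (by linarith)]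
          have := abs_nonneg T
          have := le_abs_self (2 * T)
          linarith
      have h2 : (fun s => G (s - 1 / 2)) 2 ≠ 0 := hGne _ (by norm_num)
      refine (dz_finite hHd h2 0 (2 + (|T| + |2 * T|))).subset ?_
      intro s hs
      exact ⟨by rw [sub_zero]; exact h1 s hs, hs.2⟩
    · rw [k1, ← hcard]
      exact c1
    · rw [k1, k2]
      exact c2

end Pool.Agent.Helper13.CM
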