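import Mathlib.NumberTheory.NumberField.Cyclotomic.Three
import Mathlib.NumberTheory.NumberField.Cyclotomic.PID
import Mathlib.NumberTheory.JacobiSum.Basic
import Pool.Agent.Helper13.CM.Char

/-!
Cubic residue characters of the residue fields of `ℤ[ω]` and the number of points of `y² = x³ + 16`.
-/

set_option autoImplicit false
set_option linter.unusedSectionVars false
set_option linter.style.haveILetI false

open NumberField Finset

namespace Pool.Agent.Helper13.CM.Eis

section
variable {F : Type} [Field F] [NumberField F] {et : 𝓞 F} (he : IsPrimitiveRoot et 3)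
include he

lemma et_cube : et ^ 3 = 1 := he.pow_eq_one

lemma et_sum : et ^ 2 + et + 1 = 0 := by
  have h1 : (et - 1) * (et ^ 2 + et + 1) = 0 := by
    have : (et - 1) * (et ^ 2 + et + 1) = et ^ 3 - 1 := by ring
    rw [this, et_cube he, sub_self]
  rcases mul_eq_zero.1 h1 with h | h
  · exact absurd (sub_eq_zero.1 h) (he.ne_one (by norm_num))
  · exact h

end

section
variable {F : Type} [Field F] [NumberField F] {et : 𝓞 F} (he : IsPrimitiveRoot et 3)
  {k : Type} [Field k] [Fintype k] [DecidableEq k] (r : 𝓞 F →+* k)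
include he r


lemma r_prim (h3 : (3 : k) ≠ 0) : IsPrimitiveRoot (r et) 3 := by
  have h1 : (r et) ^ 3 = 1 := by rw [← map_pow, et_cube he, map_one]
  have h2 : r et ≠ 1 := by
    intro h
    have h4 := congrArg r (et_sum he)
    rw [map_add, map_add, map_pow, h, map_one, map_zero] at h4
    apply h3
    linear_combination h4
  have : orderOf (r et) = 3 := orderOf_eq_prime h1 h2
  have h3 := IsPrimitiveRoot.orderOf (r et)
  rwa [this] at h3

lemma three_dvd (h3 : (3 : k) ≠ 0) : 3 ∣ Fintype.card k - 1 := by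
  have h := r_prim he r h3
  have h1 : orderOf (h.isUnit (by norm_num)).unit = 3 := by
    rw [← orderOf_units, IsUnit.unit_spec]
    exact h.eq_orderOf.symm
  rw [← Fintype.card_units, ← h1]
  exact orderOf_dvd_card

omit he r in
/-- the exponent -/
def mm (k : Type) [Fintype k] : ℕ := (Fintype.card k - 1) / 3

lemma mm_mul (h3 : (3 : k) ≠ 0) : mm k * 3 = Fintype.card k - 1 :=
  Nat.div_mul_cancel (three_dvd he r h3)

lemma mm_pos (h3 : (3 : k) ≠ 0) : 0 < mm k := by
  have h1 := mm_mul he r h3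
  have h2 : 1 < Fintype.card k := Fintype.one_lt_card
  by_contra h
  have : mm k = 0 := by omega
  rw [this] at h1
  omega

/-- the cubic residue character -/
theorem exists_rho (h3 : (3 : k) ≠ 0) : ∃ ρ : MulChar k (𝓞 F), (∀ x, r (ρ x) = x ^ mm k) ∧
    ρ ^ 3 = 1 := by
  have hprim := r_prim he r h3
  -- the reduction of the roots of unity
  have hinj : Function.Injective (restrictRootsOfUnity r 3) := by
    rw [injective_iff_map_eq_one]
    intro a ha
    have h1 : r ((a : (𝓞 F)ˣ) : 𝓞 F) = 1 := by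
      have h2 := restrictRootsOfUnity_coe_apply r a
      rw [ha] at h2
      simpa using h2.symm
    have h2 : ((a : (𝓞 F)ˣ) : 𝓞 F) ^ 3 = 1 := by
      have := (mem_rootsOfUnity 3 (a : (𝓞 F)ˣ)).1 a.2
      have h4 := congrArg (fun u : (𝓞 F)ˣ => (u : 𝓞 F)) this
      simpa using h4
    obtain ⟨i, hi, h4⟩ := he.eq_pow_of_pow_eq_one h2
    have h5 : (r et) ^ i = 1 := by rw [← map_pow, h4, h1]
    have h6 : 3 ∣ i := (hprim.pow_eq_one_iff_dvd i).1 h5
    have h7 : i = 0 := by omega
    rw [h7, pow_zero] at h4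
    ext
    simp [← h4]
  have hcard1 : Nat.card (rootsOfUnity 3 (𝓞 F)) = 3 := he.card_rootsOfUnity
  have hcard2 : Nat.card (rootsOfUnity 3 k) = 3 := hprim.card_rootsOfUnity
  have hbij : Function.Bijective (restrictRootsOfUnity r 3) := by
    rw [Nat.bijective_iff_injective_and_card]
    exact ⟨hinj, by rw [hcard1, hcard2]⟩
  let e := MulEquiv.ofBijective (restrictRootsOfUnity r 3) hbij
  let g : kˣ →* rootsOfUnity 3 k := (powMonoidHom (mm k)).codRestrict (rootsOfUnity 3 k) (fun u => by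
    rw [mem_rootsOfUnity, powMonoidHom_apply, ← pow_mul, mm_mul he r h3]
    ext
    push_cast
    exact FiniteField.pow_card_sub_one_eq_one _ u.ne_zero)
  let ρ₀ : kˣ →* (𝓞 F)ˣ := (rootsOfUnity 3 (𝓞 F)).subtype.comp (e.symm.toMonoidHom.comp g)
  refine ⟨MulChar.ofUnitHom ρ₀, ?_, ?_⟩
  · intro x
    by_cases hx : x = 0
    · rw [hx, MulChar.map_zero, map_zero, zero_pow (mm_pos he r h3).ne']
    · lift x to kˣ using IsUnit.mk0 x hx
      rw [MulChar.ofUnitHom_coe]
      have h4 : restrictRootsOfUnity r 3 (e.symm (g x)) = g x := e.apply_symm_apply (g x)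
      have h5 := restrictRootsOfUnity_coe_apply r (e.symm (g x))
      rw [h4] at h5
      have h6 : ((g x : kˣ) : k) = (x : k) ^ mm k := by
        show (((powMonoidHom (mm k) x : kˣ)) : k) = _
        rw [powMonoidHom_apply]
        push_cast
        rfl
      rw [h6] at h5
      exact h5.symm
  · ext u
    rw [MulChar.pow_apply_coe, MulChar.ofUnitHom_coe, MulChar.one_apply_coe]
    have h4 := (mem_rootsOfUnity 3 ((e.symm (g u) : (𝓞 F)ˣ))).1 (e.symm (g u)).2
    have h5 := congrArg (fun u : (𝓞 F)ˣ => (u : 𝓞 F)) h4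
    simp only [Units.val_pow_eq_pow_val, Units.val_one] at h5
    exact congrArg (algebraMap (𝓞 F) F) h5

/-- cubes -/
lemma exists_cube (h3 : (3 : k) ≠ 0) {x : k} (hx : x ≠ 0) (h : x ^ mm k = 1) : ∃ y, y ^ 3 = x := by
  obtain ⟨g, hg⟩ := IsCyclic.exists_generator (α := kˣ)
  have hord : orderOf g = Fintype.card k - 1 := by
    rw [orderOf_eq_card_of_forall_mem_zpowers hg, Nat.card_eq_fintype_card, Fintype.card_units]
  lift x to kˣ using IsUnit.mk0 x hx
  obtain ⟨j, hj⟩ := (mem_powers_iff_mem_zpowers.2 (hg x))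
  have h1 : g ^ (j * mm k) = 1 := by
    rw [pow_mul]
    have : g ^ j = x := hj
    rw [this]
    ext
    push_cast
    exact h
  have h2 := orderOf_dvd_of_pow_eq_one h1
  rw [hord, ← mm_mul he r h3, mul_comm (mm k) 3] at h2
  have h4 : 3 ∣ j := Nat.dvd_of_mul_dvd_mul_right (mm_pos he r h3) h2
  obtain ⟨i, rfl⟩ := h4
  refine ⟨((g ^ i : kˣ) : k), ?_⟩
  rw [← Units.val_pow_eq_pow_val, ← pow_mul, mul_comm]
  exact congrArg _ hj

lemma exists_ne (h3 : (3 : k) ≠ 0) : ∃ x : k, x ≠ 0 ∧ x ^ mm k ≠ 1 := by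
  obtain ⟨g, hg⟩ := IsCyclic.exists_generator (α := kˣ)
  have hord : orderOf g = Fintype.card k - 1 := by
    rw [orderOf_eq_card_of_forall_mem_zpowers hg, Nat.card_eq_fintype_card, Fintype.card_units]
  refine ⟨g, g.ne_zero, fun h => ?_⟩
  have h1 : g ^ mm k = 1 := by
    ext
    push_cast
    exact h
  have h2 := Nat.le_of_dvd (mm_pos he r h3) (orderOf_dvd_of_pow_eq_one h1)
  rw [hord, ← mm_mul he r h3] at h2
  have := mm_pos he r h3
  omega

variable {r} in
lemma rho_ne_one (h3 : (3 : k) ≠ 0) {ρ : MulChar k (𝓞 F)} (hρ : ∀ x, r (ρ x) = x ^ mm k) :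
    ρ ≠ 1 := by
  intro h
  obtain ⟨x, hx, hx1⟩ := exists_ne he r h3
  apply hx1
  rw [← hρ, h, MulChar.one_apply (IsUnit.mk0 x hx), map_one]

omit he r [DecidableEq k] in
lemma rho_cube {ρ : MulChar k (𝓞 F)} (h : ρ ^ 3 = 1) {x : k} (hx : x ≠ 0) :
    ρ x ^ 3 = 1 := by
  have h1 : (ρ ^ 3) x = 1 := by rw [h, MulChar.one_apply (IsUnit.mk0 x hx)]
  rwa [MulChar.pow_apply' _ (by norm_num)] at h1

/-- the number of cube roots -/
lemma card_cube (h3 : (3 : k) ≠ 0) {ρ : MulChar k (𝓞 F)} (hρ : ∀ x, r (ρ x) = x ^ mm k)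
    (h : ρ ^ 3 = 1) (a : k) :
    ((Fintype.card {x : k // x ^ 3 = a} : ℕ) : 𝓞 F) = 1 + ρ a + ρ a ^ 2 := by
  by_cases ha : a = 0
  · have h1 : Fintype.card {x : k // x ^ 3 = a} = 1 := by
      rw [Fintype.card_eq_one_iff]
      refine ⟨⟨0, by rw [ha]; norm_num⟩, fun y => ?_⟩
      apply Subtype.ext
      have h5 := y.2.trans ha
      exact pow_eq_zero_iff (by norm_num) |>.1 h5
    rw [h1, ha, MulChar.map_zero]
    norm_num
  · have hcube := rho_cube h ha
    by_cases h1 : ρ a = 1
    · -- three solutions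
      have h2 : a ^ mm k = 1 := by rw [← hρ, h1, map_one]
      obtain ⟨b, hb⟩ := exists_cube he r h3 ha h2
      have hb0 : b ≠ 0 := by
        rintro rfl
        apply ha
        rw [← hb]
        norm_num
      have hprim := r_prim he r h3
      have h4 : Fintype.card {x : k // x ^ 3 = a} = 3 := by
        rw [Fintype.card_subtype]
        have h5 : (Finset.univ.filter (fun x : k => x ^ 3 = a)) =
            (Finset.range 3).image (fun i => b * (r et) ^ i) := by
          ext x
          rw [Finset.mem_filter, Finset.mem_image]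
          constructor
          · rintro ⟨-, hx⟩
            have h6 : (x / b) ^ 3 = 1 := by
              rw [div_pow, hx, hb, div_self ha]
            obtain ⟨i, hi, h7⟩ := hprim.eq_pow_of_pow_eq_one h6
            refine ⟨i, Finset.mem_range.2 hi, ?_⟩
            rw [h7]
            field_simp
          · rintro ⟨i, -, rfl⟩
            refine ⟨Finset.mem_univ _, ?_⟩
            rw [mul_pow, hb, ← pow_mul, mul_comm i 3, pow_mul, hprim.pow_eq_one, one_pow, mul_one]
        rw [h5, Finset.card_image_of_injOn, Finset.card_range]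
        intro i hi j hj hij
        rw [Finset.coe_range, Set.mem_Iio] at hi hj
        exact hprim.pow_inj hi hj (mul_left_cancel₀ hb0 hij)
      rw [h4, h1]
      norm_num
    · have h4 : Fintype.card {x : k // x ^ 3 = a} = 0 := by
        rw [Fintype.card_eq_zero_iff]
        refine ⟨fun x => h1 ?_⟩
        have hx0 : x.1 ≠ 0 := by
          intro h0
          apply ha
          rw [← x.2, h0]
          norm_num
        rw [← x.2, map_pow, rho_cube h hx0]
      rw [h4, Nat.cast_zero]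
      have h5 : (ρ a - 1) * (1 + ρ a + ρ a ^ 2) = 0 := by
        have : (ρ a - 1) * (1 + ρ a + ρ a ^ 2) = ρ a ^ 3 - 1 := by ring
        rw [this, hcube, sub_self]
      rcases mul_eq_zero.1 h5 with h6 | h6
      · exact absurd (sub_eq_zero.1 h6) h1
      · exact h6.symm

/-- the number of points of `y² = x³ + 16` -/
lemma npts_eq (h2 : (2 : k) ≠ 0) (h3 : (3 : k) ≠ 0) {ρ : MulChar k (𝓞 F)}
    (hρ : ∀ x, r (ρ x) = x ^ mm k) (h : ρ ^ 3 = 1) :
    ((npts (0 : k) 16 : ℕ) : 𝓞 F) = (Fintype.card k : 𝓞 F) + jacobiSum ρ ρ +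
      jacobiSum (ρ ^ 2) (ρ ^ 2) := by
  have e : {x : k × k // x.2 ^ 2 = x.1 ^ 3 + 0 * x.1 + 16} ≃ Σ y : k, {x : k // x ^ 3 = y ^ 2 - 16} :=
    { toFun := fun p => ⟨p.1.2, ⟨p.1.1, by have := p.2; linear_combination -this⟩⟩
      invFun := fun p => ⟨(p.2.1, p.1), by have := p.2.2; linear_combination -this⟩
      left_inv := fun _ => rfl
      right_inv := fun _ => rfl }
  unfold npts
  rw [Nat.card_congr e, Nat.card_eq_fintype_card, Fintype.card_sigma]
  push_cast
  simp_rw [card_cube he r h3 hρ h]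
  have h4 : (4 : k) ≠ 0 := by
    have : (4 : k) = 2 ^ 2 := by norm_num
    rw [this]
    exact pow_ne_zero 2 h2
  have hm4 : (-4 : k) ≠ 0 := neg_ne_zero.2 h4
  -- substitution
  have hsub : ∀ f : k → 𝓞 F, ∑ y : k, f (y ^ 2 - 16) = ∑ x : k, f ((-4) ^ 3 * (x * (1 - x))) := by
    intro f
    symm
    refine Fintype.sum_equiv ((Equiv.mulLeft₀ (8 : k) (by
      have : (8 : k) = 2 ^ 3 := by norm_num
      rw [this]
      exact pow_ne_zero 3 h2)).trans (Equiv.subRight 4)) _ _ (fun x => ?_)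
    show f ((-4) ^ 3 * (x * (1 - x))) = f ((8 * x - 4) ^ 2 - 16)
    congr 1
    ring
  rw [hsub (fun y => 1 + ρ y + ρ y ^ 2)]
  have h5 : ∀ x : k, (1 + ρ ((-4) ^ 3 * (x * (1 - x))) + ρ ((-4) ^ 3 * (x * (1 - x))) ^ 2) =
      1 + ρ x * ρ (1 - x) + (ρ ^ 2) x * (ρ ^ 2) (1 - x) := by
    intro x
    rw [map_mul, map_pow, rho_cube h hm4, one_mul, map_mul, MulChar.pow_apply' _ (by norm_num),
      MulChar.pow_apply' _ (by norm_num), mul_pow]
  simp_rw [h5]
  rw [Finset.sum_add_distrib, Finset.sum_add_distrib]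
  simp only [jacobiSum, Finset.sum_const, Finset.card_univ, nsmul_eq_mul, mul_one]

/-- the Jacobi sum reduces to zero -/
lemma r_jacobi (h3 : (3 : k) ≠ 0) {ρ : MulChar k (𝓞 F)} (hρ : ∀ x, r (ρ x) = x ^ mm k) :
    r (jacobiSum ρ ρ) = 0 := by
  unfold jacobiSum
  rw [map_sum]
  simp_rw [map_mul, hρ]
  have h1 : ∀ x : k, x ^ mm k * (1 - x) ^ mm k =
      ∑ j ∈ Finset.range (mm k + 1), x ^ (mm k + j) * ((-1) ^ j * ((mm k).choose j : k)) := by
    intro x
    rw [sub_eq_add_neg, add_comm (1 : k) (-x), add_pow, Finset.mul_sum]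
    refine Finset.sum_congr rfl fun j _ => ?_
    rw [one_pow, neg_pow, pow_add]
    ring
  simp_rw [h1]
  rw [Finset.sum_comm]
  refine Finset.sum_eq_zero fun j hj => ?_
  rw [← Finset.sum_mul, FiniteField.sum_pow_lt_card_sub_one, zero_mul]
  rw [Finset.mem_range] at hj
  rw [← mm_mul he r h3]
  have := mm_pos he r h3
  omega

/-- the Jacobi sum modulo three -/
lemma jacobi_mod {ρ : MulChar k (𝓞 F)} (h3 : (3 : k) ≠ 0)
    (h : ρ ^ 3 = 1) : (3 : 𝓞 F) ∣ jacobiSum ρ ρ + 1 := by
  obtain ⟨w, -, hw⟩ := exists_jacobiSum_eq_neg_one_add (by norm_num : 2 < 3) h h (three_dvd he r h3)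
    he
  refine ⟨-et * w, ?_⟩
  rw [hw]
  have := et_sum he
  linear_combination w * this

end

end Pool.Agent.Helper13.CM.Eis
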