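import Pool.Agent.Helper13.CM.Eis1

/-!
The number of points of `y² = x³ + 16` over the residue fields of `ℤ[ω]`.
-/

set_option autoImplicit false
set_option linter.unusedSectionVars false
set_option linter.style.haveILetI false

open NumberField Finset

namespace Pool.Agent.Helper13.CM.Eis

section
variable {F : Type} [Field F] [NumberField F] {et : 𝓞 F} (he : IsPrimitiveRoot et 3)
include he

lemma coe_prim : IsPrimitiveRoot (et : F) 3 :=
  he.map_of_injective (f := algebraMap (𝓞 F) F) RingOfIntegers.coe_injective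

lemma toInteger_eq : (coe_prim he).toInteger = et := by
  ext
  rfl

variable [IsCyclotomicExtension {3} ℚ F]

lemma hom_ext {φ φ' : F →+* ℂ} (h : φ (et : F) = φ' (et : F)) : φ = φ' := by
  have h1 : RingHom.toRatAlgHom φ = RingHom.toRatAlgHom φ' := by
    apply ((coe_prim he).powerBasis ℚ).algHom_ext
    rw [IsPrimitiveRoot.powerBasis_gen]
    exact h
  have h2 := congrArg (fun f : F →ₐ[ℚ] ℂ => (f : F →+* ℂ)) h1
  simpa using h2

lemma root_sum (φ : F →+* ℂ) : (φ (et : F)) ^ 2 + φ (et : F) + 1 = 0 := by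
  have h := congrArg (fun x : 𝓞 F => φ (x : F)) (et_sum he)
  simpa using h

lemma not_real (φ : F →+* ℂ) : (starRingEnd ℂ) (φ (et : F)) ≠ φ (et : F) := by
  intro h
  rw [Complex.conj_eq_iff_real] at h
  obtain ⟨x, hx⟩ := h
  have h1 := root_sum he φ
  rw [hx] at h1
  have h2 : x ^ 2 + x + 1 = 0 := by exact_mod_cast h1
  nlinarith [sq_nonneg (x + 1 / 2)]

lemma conj_sum (φ : F →+* ℂ) : (starRingEnd ℂ) (φ (et : F)) = -1 - φ (et : F) := by
  have h1 := root_sum he φ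
  have h2 := congrArg (starRingEnd ℂ) h1
  rw [map_add, map_add, map_pow, map_one, map_zero] at h2
  have h3 : ((starRingEnd ℂ) (φ (et : F)) - φ (et : F)) *
      ((starRingEnd ℂ) (φ (et : F)) + φ (et : F) + 1) = 0 := by
    linear_combination h2 - h1
  rcases mul_eq_zero.1 h3 with h | h
  · exact absurd (sub_eq_zero.1 h) (not_real he φ)
  · linear_combination h

/-- the two embeddings -/
lemma eq_or (φ φ' : F →+* ℂ) : φ' = φ ∨ φ' = (starRingEnd ℂ).comp φ := by
  have h1 := root_sum he φ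
  have h2 := root_sum he φ'
  have h3 : (φ' (et : F) - φ (et : F)) * (φ' (et : F) + φ (et : F) + 1) = 0 := by
    linear_combination h2 - h1
  rcases mul_eq_zero.1 h3 with h | h
  · left
    exact hom_ext he (sub_eq_zero.1 h)
  · right
    apply hom_ext he
    show φ' (et : F) = (starRingEnd ℂ) (φ (et : F))
    rw [conj_sum he]
    linear_combination h

lemma typ_single (φ φ' : F →+* ℂ) : φ' ∈ ({φ} : Finset (F →+* ℂ)) ↔
    (starRingEnd ℂ).comp φ' ∉ ({φ} : Finset (F →+* ℂ)) := by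
  rw [Finset.mem_singleton, Finset.mem_singleton]
  constructor
  · rintro rfl h
    apply not_real he φ'
    exact congrArg (fun f : F →+* ℂ => f (et : F)) h
  · intro h
    rcases eq_or he φ φ' with h1 | h1
    · exact h1
    · exfalso
      apply h
      rw [h1]
      ext x
      simp

/-- the norm -/
lemma norm_sq_eq (φ : F →+* ℂ) (x : 𝓞 F) :
    ‖φ (x : F)‖ ^ 2 = (Ideal.absNorm (Ideal.span {x}) : ℝ) := by
  rw [← norm_prod_sq (typ_single he φ) x, Finset.prod_singleton]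

lemma not_three_dvd_two (φ : F →+* ℂ) : ¬ (3 : 𝓞 F) ∣ 2 := by
  rintro ⟨c, hc⟩
  have h1 := norm_sq_eq he φ c
  have h2 := congrArg (fun x : 𝓞 F => φ (x : F)) hc
  simp only [map_mul, map_ofNat] at h2
  have h3 : φ (c : F) = 2 / 3 := by
    rw [eq_div_iff (by norm_num)]
    linear_combination -h2
  rw [h3] at h1
  have h4 : ‖(2 / 3 : ℂ)‖ = 2 / 3 := by
    rw [norm_div]
    norm_num
  rw [h4] at h1
  have h5 : (4 : ℝ) = 9 * (Ideal.absNorm (Ideal.span {c}) : ℝ) := by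
    rw [← h1]; norm_num
  have h6 : (4 : ℕ) = 9 * Ideal.absNorm (Ideal.span {c}) := by exact_mod_cast h5
  omega

/-- a unit congruent to `-1` modulo three -/
lemma unit_eq (φ : F →+* ℂ) {t : 𝓞 F} (ht : IsUnit t) (h : (3 : 𝓞 F) ∣ t + 1) : t = -1 := by
  obtain ⟨u, rfl⟩ := ht
  have h1 : ∃ n : ℤ, ((coe_prim he).toInteger - 1) ^ 2 ∣ ((u : 𝓞 F) - n : 𝓞 F) := by
    obtain ⟨c, hc⟩ := h
    refine ⟨-1, -et ^ 2 * c, ?_⟩
    rw [toInteger_eq he]
    push_cast
    have h2 := et_sum he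
    linear_combination hc + c * (et ^ 2 - 3 * et + 3) * h2
  rcases IsCyclotomicExtension.Rat.Three.eq_one_or_neg_one_of_unit_of_congruent
    (coe_prim he) u h1 with h2 | h2
  · exfalso
    rw [h2] at h
    apply not_three_dvd_two he φ
    have : (2 : 𝓞 F) = ((1 : (𝓞 F)ˣ) : 𝓞 F) + 1 := by
      rw [Units.val_one]; norm_num
    rw [this]
    exact h
  · rw [h2]
    simp

end

section
variable {F : Type} [Field F] [NumberField F] {et : 𝓞 F} (he : IsPrimitiveRoot et 3)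
  [IsCyclotomicExtension {3} ℚ F] {k : Type} [Field k] [Fintype k] [DecidableEq k]
include he

omit [IsCyclotomicExtension {3} ℚ F] [DecidableEq k] in
lemma conj_rho (φ : F →+* ℂ) {ρ : MulChar k (𝓞 F)} (h : ρ ^ 3 = 1) (x : k) :
    (starRingEnd ℂ) (φ ((ρ x : 𝓞 F) : F)) = φ (((ρ ^ 2) x : 𝓞 F) : F) := by
  by_cases hx : x = 0
  · rw [hx, MulChar.map_zero, MulChar.map_zero]
    simp
  · have h1 := congrArg (fun y : 𝓞 F => φ (y : F)) (rho_cube h hx)
    simp only [map_pow, map_one] at h1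
    have h2 : ‖φ ((ρ x : 𝓞 F) : F)‖ = 1 := by
      have h3 := congrArg norm h1
      rw [norm_pow, norm_one] at h3
      exact (pow_eq_one_iff_of_nonneg (norm_nonneg _) (by norm_num)).1 h3
    have h3 : φ ((ρ x : 𝓞 F) : F) * (starRingEnd ℂ) (φ ((ρ x : 𝓞 F) : F)) = 1 := by
      rw [Complex.mul_conj, Complex.normSq_eq_norm_sq, h2]
      norm_num
    have h0 : φ ((ρ x : 𝓞 F) : F) ≠ 0 := by
      rw [← norm_ne_zero_iff, h2]
      exact one_ne_zero
    rw [MulChar.pow_apply' _ (by norm_num)]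
    apply mul_left_cancel₀ h0
    rw [h3]
    simp only [map_pow]
    rw [← h1]
    ring

omit [IsCyclotomicExtension {3} ℚ F] [DecidableEq k] in
lemma conj_jacobi (φ : F →+* ℂ) {ρ : MulChar k (𝓞 F)} (h : ρ ^ 3 = 1) :
    (starRingEnd ℂ) (φ ((jacobiSum ρ ρ : 𝓞 F) : F)) =
      φ ((jacobiSum (ρ ^ 2) (ρ ^ 2) : 𝓞 F) : F) := by
  unfold jacobiSum
  simp only [map_sum, map_mul]
  refine Finset.sum_congr rfl fun x _ => ?_
  rw [conj_rho he φ h, conj_rho he φ h]

omit [IsCyclotomicExtension {3} ℚ F] in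
lemma jacobi_norm (φ : F →+* ℂ) (r : 𝓞 F →+* k) (h3 : (3 : k) ≠ 0) {ρ : MulChar k (𝓞 F)}
    (hρ : ∀ x, r (ρ x) = x ^ mm k) (h : ρ ^ 3 = 1) :
    ‖φ ((jacobiSum ρ ρ : 𝓞 F) : F)‖ ^ 2 = (Fintype.card k : ℝ) := by
  obtain ⟨g, hg⟩ : ∃ g : 𝓞 F →+* ℂ, g = φ.comp (algebraMap (𝓞 F) F) := ⟨_, rfl⟩
  have hginj : Function.Injective g := by
    rw [hg]
    exact φ.injective.comp RingOfIntegers.coe_injective
  have h1 : ρ ≠ 1 := rho_ne_one he h3 hρ
  have h1' : ρ.ringHomComp g ≠ 1 := (MulChar.ringHomComp_ne_one_iff hginj).mpr h1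
  have h2 : ρ * ρ ≠ 1 := by
    intro h4
    apply h1
    have h5 : ρ ^ 3 = ρ * ρ * ρ := by rw [pow_succ, sq]
    rw [h5, h4, one_mul] at h
    exact h
  have h2' : ρ.ringHomComp g * ρ.ringHomComp g ≠ 1 := by
    rw [← MulChar.ringHomComp_mul]
    exact (MulChar.ringHomComp_ne_one_iff hginj).mpr h2
  have hchar : ringChar ℂ ≠ ringChar k := by
    rw [ringChar.eq_zero]
    exact (CharP.char_ne_zero_of_finite k (ringChar k)).symm
  have h4 := jacobiSum_mul_jacobiSum_inv hchar h1' h1' h2'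
  have h5 : (ρ.ringHomComp g)⁻¹ = (ρ ^ 2).ringHomComp g := by
    rw [inv_eq_iff_mul_eq_one, ← MulChar.ringHomComp_mul]
    have : ρ * ρ ^ 2 = 1 := by rw [← h]; exact (pow_succ' ρ 2).symm
    rw [this]
    ext u
    simp [MulChar.ringHomComp]
  rw [h5, jacobiSum_ringHomComp, jacobiSum_ringHomComp] at h4
  have h6 : g (jacobiSum (ρ ^ 2) (ρ ^ 2)) = (starRingEnd ℂ) (g (jacobiSum ρ ρ)) := by
    rw [hg]
    exact (conj_jacobi he φ h).symm
  rw [h6, Complex.mul_conj, Complex.normSq_eq_norm_sq] at h4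
  rw [hg] at h4
  exact_mod_cast h4

end

section
variable {F : Type} [Field F] [NumberField F] {et : 𝓞 F} (he : IsPrimitiveRoot et 3)
  [IsCyclotomicExtension {3} ℚ F]
include he

/-- **the number of points of `y² = x³ + 16` over the residue field of a primary prime** -/
theorem base_count (φ : F →+* ℂ) {z : 𝓞 F} (hzp : Prime z) (hz3 : (3 : 𝓞 F) ∣ z - 1)
    (h2 : (2 : 𝓞 F ⧸ Ideal.span {z}) ≠ 0) :
    (((Nat.card (𝓞 F ⧸ Ideal.span {z}) : ℤ) -
      (npts (0 : 𝓞 F ⧸ Ideal.span {z}) 16 : ℤ) : ℤ) : ℂ) =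
      φ (z : F) + (starRingEnd ℂ) (φ (z : F)) := by
  classical
  have hz0 : z ≠ 0 := hzp.ne_zero
  have hprime : (Ideal.span {z}).IsPrime := (Ideal.span_singleton_prime hz0).2 hzp
  have hbot : Ideal.span {z} ≠ ⊥ := by
    rw [Ne, Ideal.span_singleton_eq_bot]
    exact hz0
  have hmax : (Ideal.span {z}).IsMaximal := hprime.isMaximal hbot
  let _ : Field (𝓞 F ⧸ Ideal.span {z}) := Ideal.Quotient.field _
  have : Finite (𝓞 F ⧸ Ideal.span {z}) := Ideal.finiteQuotientOfFreeOfNeBot _ hbot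
  let _ : Fintype (𝓞 F ⧸ Ideal.span {z}) := Fintype.ofFinite _
  obtain ⟨r, hr⟩ : ∃ r : 𝓞 F →+* 𝓞 F ⧸ Ideal.span {z}, r = Ideal.Quotient.mk _ := ⟨_, rfl⟩
  have hrz : ∀ x, r x = 0 ↔ z ∣ x := by
    intro x
    rw [hr, Ideal.Quotient.eq_zero_iff_mem, Ideal.mem_span_singleton]
  have h3 : (3 : 𝓞 F ⧸ Ideal.span {z}) ≠ 0 := by
    intro h
    have h4 : z ∣ 3 := by
      rw [← hrz, map_ofNat]
      exact h
    have h5 : z ∣ z - 1 := h4.trans hz3
    have h6 : z ∣ 1 := by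
      have := dvd_sub (dvd_refl z) h5
      rwa [sub_sub_cancel] at this
    exact hzp.not_isUnit (isUnit_of_dvd_one h6)
  obtain ⟨ρ, hρ, hρ3⟩ := exists_rho he r h3
  have hN := npts_eq he r h2 h3 hρ hρ3
  obtain ⟨t, ht⟩ : z ∣ jacobiSum ρ ρ := (hrz _).1 (r_jacobi he r h3 hρ)
  have hq : (Fintype.card (𝓞 F ⧸ Ideal.span {z}) : ℝ) = (Ideal.absNorm (Ideal.span {z}) : ℝ) := by
    rw [Ideal.absNorm_apply, Submodule.cardQuot_apply, Nat.card_eq_fintype_card]
  have hq0 : (Fintype.card (𝓞 F ⧸ Ideal.span {z}) : ℝ) ≠ 0 := by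
    exact_mod_cast Fintype.card_ne_zero
  have htu : IsUnit t := by
    have h5 := jacobi_norm he φ r h3 hρ hρ3
    rw [ht] at h5
    simp only [map_mul] at h5
    rw [norm_mul, mul_pow, norm_sq_eq he φ z, ← hq] at h5
    have h6 : ‖φ (t : F)‖ ^ 2 = 1 := by
      apply mul_left_cancel₀ hq0
      rw [mul_one]
      exact h5
    rw [norm_sq_eq he φ t] at h6
    have h7 : Ideal.absNorm (Ideal.span {t}) = 1 := by exact_mod_cast h6
    rw [Ideal.absNorm_eq_one_iff, Ideal.span_singleton_eq_top] at h7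
    exact h7
  have ht1 : (3 : 𝓞 F) ∣ t + 1 := by
    have h5 := jacobi_mod he r h3 hρ3
    rw [ht] at h5
    have h6 : t + 1 = (z * t + 1) - (z - 1) * t := by ring
    rw [h6]
    exact dvd_sub h5 (hz3.mul_right t)
  have ht2 := unit_eq he φ htu ht1
  rw [ht2, mul_neg_one] at ht
  have h5 := congrArg (fun x : 𝓞 F => φ (x : F)) hN
  simp only [map_add, map_natCast] at h5
  rw [← conj_jacobi he φ hρ3, ht] at h5
  simp only [map_neg] at h5
  have h6 : Nat.card (𝓞 F ⧸ Ideal.span {z}) = Fintype.card (𝓞 F ⧸ Ideal.span {z}) :=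
    Nat.card_eq_fintype_card
  rw [h6]
  push_cast
  rw [h5]
  ring

end

end Pool.Agent.Helper13.CM.Eis
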