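import Pool.Agent.Helper13.CM.Eis2

/-!
The Hecke character of `y² = x³ + 16` over a number field containing `ℚ(ω)`.
-/

set_option autoImplicit false
set_option linter.unusedSectionVars false
set_option linter.style.haveILetI false

open NumberField Finset

namespace Pool.Agent.Helper13.CM.Eis

open Pool.Agent.Y773.G (cj cj_cj cj_apply)
open Pool.Agent.H82R3.EK (luc luc_eq)

section
variable {F : Type} [Field F] [NumberField F] {et : 𝓞 F} (he : IsPrimitiveRoot et 3)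
  [IsCyclotomicExtension {3} ℚ F]
include he

/-- uniqueness of the primary generator -/
lemma prim_unique {x y : 𝓞 F} (hx : (3 : 𝓞 F) ∣ x - 1) (hy : (3 : 𝓞 F) ∣ y - 1)
    (h : Ideal.span {x} = Ideal.span {y}) : x = y := by
  obtain ⟨φ⟩ : Nonempty (F →+* ℂ) := inferInstance
  obtain ⟨u, hu⟩ : Associated x y := Ideal.span_singleton_eq_span_singleton.1 h
  have h1 : (3 : 𝓞 F) ∣ -(u : 𝓞 F) + 1 := by
    have e : -(u : 𝓞 F) + 1 = (x - 1) * u - (y - 1) := by rw [← hu]; ring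
    rw [e]
    exact dvd_sub (hx.mul_right _) hy
  have h2 := unit_eq he φ (u.isUnit.neg) h1
  have h3 : (u : 𝓞 F) = 1 := neg_injective h2
  rw [← hu, h3, mul_one]

/-- an element invertible modulo three has a primary associate -/
lemma exists_unit {w v : 𝓞 F} (h : (3 : 𝓞 F) ∣ w * v - 1) : ∃ u : 𝓞 F, IsUnit u ∧
    (3 : 𝓞 F) ∣ u * w - 1 := by
  obtain ⟨φ⟩ : Nonempty (F →+* ℂ) := inferInstance
  have hs := et_sum he
  have hc := et_cube he
  have hu : IsUnit et := he.isUnit (by norm_num)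
  have hlam : (et - 1) ^ 2 = -(3 * et) := by linear_combination hs
  have h3lam : (et - 1) ∣ 3 := by
    refine ⟨-et ^ 2 * (et - 1), ?_⟩
    linear_combination (et ^ 2 - 3 * et + 3) * hs
  have key : ∀ x : 𝓞 F, (et - 1) ∣ x - 1 → ∃ u : 𝓞 F, IsUnit u ∧ (3 : 𝓞 F) ∣ u * x - 1 := by
    rintro x ⟨y, hy⟩
    have h1 := IsCyclotomicExtension.Rat.Three.lambda_dvd_or_dvd_sub_one_or_dvd_add_one
      (coe_prim he) y
    rw [toInteger_eq he] at h1
    rcases h1 with ⟨a, ha⟩ | ⟨a, ha⟩ | ⟨a, ha⟩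
    · refine ⟨1, isUnit_one, -et * a, ?_⟩
      rw [ha] at hy
      linear_combination hy + a * hlam
    · refine ⟨et ^ 2, hu.pow 2, -a, ?_⟩
      have hy' : x = 1 + (et - 1) * (1 + (et - 1) * a) := by
        linear_combination hy + (et - 1) * ha
      rw [hy']
      linear_combination (a * et ^ 2) * hlam + (1 - 3 * a) * hc
    · refine ⟨et, hu, et - et ^ 2 * a, ?_⟩
      have hy' : x = 1 + (et - 1) * (-1 + (et - 1) * a) := by
        linear_combination hy + (et - 1) * ha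
      rw [hy']
      linear_combination (a * et) * hlam - hs
  have h1 := IsCyclotomicExtension.Rat.Three.lambda_dvd_or_dvd_sub_one_or_dvd_add_one
      (coe_prim he) w
  rw [toInteger_eq he] at h1
  rcases h1 with h1 | h1 | h1
  · exfalso
    have h2 : (et - 1) ∣ 1 := by
      have h4 := dvd_sub (h1.mul_right v) (h3lam.trans h)
      rwa [sub_sub_cancel] at h4
    have h4 : (3 : 𝓞 F) ∣ 2 := by
      have h5 : (et - 1) ^ 2 ∣ 1 := by
        have := pow_dvd_pow_of_dvd h2 2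
        rwa [one_pow] at this
      have h6 : (3 : 𝓞 F) ∣ (et - 1) ^ 2 := ⟨-et, by rw [hlam]; ring⟩
      exact (h6.trans h5).trans (one_dvd _)
    exact not_three_dvd_two he φ h4
  · exact key w h1
  · obtain ⟨u, hu1, hu2⟩ := key (-w) (by
      have : -w - 1 = -(w + 1) := by ring
      rw [this]
      exact (dvd_neg).2 h1)
    refine ⟨-u, hu1.neg, ?_⟩
    have : -u * w - 1 = u * -w - 1 := by ring
    rw [this]
    exact hu2

lemma exists_prim_gen [IsPrincipalIdealRing (𝓞 F)] (I : Ideal (𝓞 F)) {y : 𝓞 F} (hy : y ∈ I)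
    (h : (3 : 𝓞 F) ∣ y - 1) : ∃ z, (3 : 𝓞 F) ∣ z - 1 ∧ I = Ideal.span {z} := by
  obtain ⟨w, hw⟩ := (inferInstance : I.IsPrincipal)
  have hw' : I = Ideal.span {w} := hw
  have h1 : w ∣ y := by rw [← Ideal.mem_span_singleton, ← hw']; exact hy
  obtain ⟨v, rfl⟩ := h1
  obtain ⟨u, hu, hu1⟩ := exists_unit he h
  refine ⟨u * w, hu1, ?_⟩
  rw [hw', Ideal.span_singleton_eq_span_singleton]
  exact ⟨hu.unit, by rw [mul_comm]; rfl⟩

end

section
variable {F : Type} [Field F] [NumberField F] {M : Type} [Field M] [NumberField M] [Algebra F M]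
  [IsPrincipalIdealRing (𝓞 F)]

lemma norm_sub_one (c : 𝓞 F) (x : 𝓞 M) (h : algebraMap (𝓞 F) (𝓞 M) c ∣ x - 1) :
    c ∣ Algebra.norm (𝓞 F) x - 1 := by
  classical
  obtain ⟨y, hy⟩ := h
  have hx : x = 1 + c • y := by rw [Algebra.smul_def, ← hy]; ring
  have b := Module.Free.chooseBasis (𝓞 F) (𝓞 M)
  rw [Algebra.norm_eq_matrix_det b, hx, map_add, map_one, map_smul,
    ← Ideal.mem_span_singleton, ← Ideal.Quotient.eq_zero_iff_mem, map_sub, map_one,
    RingHom.map_det, map_add, map_one]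
  have h1 : (Ideal.Quotient.mk (Ideal.span {c})).mapMatrix (c • Algebra.leftMulMatrix b y) = 0 := by
    ext i j
    rw [RingHom.mapMatrix_apply, Matrix.map_apply, Matrix.smul_apply, smul_eq_mul, map_mul,
      Ideal.Quotient.eq_zero_iff_mem.2 (Ideal.mem_span_singleton_self c), zero_mul]
    rfl
  rw [h1, add_zero, Matrix.det_one, sub_self]

variable (F) in
lemma norm_sub_one3 (x : 𝓞 M) (h : (3 : 𝓞 M) ∣ x - 1) :
    (3 : 𝓞 F) ∣ Algebra.norm (𝓞 F) x - 1 :=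
  norm_sub_one (3 : 𝓞 F) x (by rw [map_ofNat]; exact h)

open Classical in
/-- the embeddings of `M` which extend `φ₀` -/
noncomputable def Ph (M : Type) [Field M] [NumberField M] [Algebra F M] (φ₀ : F →+* ℂ) :
    Finset (M →+* ℂ) := Finset.univ.filter (fun φ => φ.comp (algebraMap F M) = φ₀)

lemma mem_Ph (φ₀ : F →+* ℂ) (φ : M →+* ℂ) : φ ∈ Ph M φ₀ ↔ φ.comp (algebraMap F M) = φ₀ := by
  unfold Ph
  simp

lemma emb_norm (φ₀ : F →+* ℂ) (x : 𝓞 M) : φ₀ ((Algebra.norm (𝓞 F) x : 𝓞 F) : F) =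
    ∏ φ ∈ Ph M φ₀, φ (x : M) := by
  classical
  letI a2 : Algebra F ℂ := φ₀.toAlgebra
  have : FiniteDimensional F M := Module.Finite.of_restrictScalars_finite ℚ _ _
  have h1 := Algebra.algebraMap_intNorm (K := F) (L := M) (A := 𝓞 F) (B := 𝓞 M) x
  rw [Algebra.intNorm_eq_norm] at h1
  have h2 := Algebra.norm_eq_prod_embeddings F ℂ (x : M)
  rw [← h1] at h2
  have h3 : φ₀ ((Algebra.norm (𝓞 F) x : 𝓞 F) : F) =
    algebraMap F ℂ (algebraMap (𝓞 F) F (Algebra.norm (𝓞 F) x)) := rfl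
  rw [h3, h2]
  refine Finset.prod_bij (fun σ _ => (σ : M →+* ℂ)) ?_ ?_ ?_ ?_
  · intro σ _
    rw [mem_Ph]
    exact σ.comp_algebraMap
  · intro σ _ τ _ h
    exact AlgHom.coe_ringHom_injective h
  · intro φ hφ
    rw [mem_Ph] at hφ
    exact ⟨⟨φ, fun r => congrArg (fun f : F →+* ℂ => f r) hφ⟩, Finset.mem_univ _, rfl⟩
  · intro σ _
    rfl

end

section
variable {F : Type} [Field F] [NumberField F] {et : 𝓞 F} (he : IsPrimitiveRoot et 3)
  [IsCyclotomicExtension {3} ℚ F] {M : Type} [Field M] [NumberField M] [Algebra F M]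
  [IsPrincipalIdealRing (𝓞 F)]
include he

/-- the primary generator of the norm of an ideal prime to `3` -/
lemma exists_w {𝔞 : Ideal (𝓞 M)} (h𝔞 : IsCoprime 𝔞 (Ideal.span {(3 : 𝓞 M)})) :
    ∃ z, (3 : 𝓞 F) ∣ z - 1 ∧ Ideal.relNorm (𝓞 F) 𝔞 = Ideal.span {z} := by
  obtain ⟨a, ha, b, hb, hab⟩ := Ideal.isCoprime_iff_exists.1 h𝔞
  refine exists_prim_gen he _ (Ideal.norm_mem_relNorm _ _ ha) ?_
  apply norm_sub_one3
  rw [← Ideal.mem_span_singleton]
  have : a - 1 = -b := by rw [← hab]; ring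
  rw [this, Ideal.neg_mem_iff]
  exact hb

omit he in
open Classical in
/-- the character -/
noncomputable def psi (M : Type) [Field M] [NumberField M] [Algebra F M] (φ₀ : F →+* ℂ)
    (𝔞 : Ideal (𝓞 M)) : ℂ :=
  if h : ∃ z, (3 : 𝓞 F) ∣ z - 1 ∧ Ideal.relNorm (𝓞 F) 𝔞 = Ideal.span {z} then
    φ₀ ((h.choose : 𝓞 F) : F) else 0

lemma psi_eq (φ₀ : F →+* ℂ) {𝔞 : Ideal (𝓞 M)} {z : 𝓞 F} (hz : (3 : 𝓞 F) ∣ z - 1)
    (h : Ideal.relNorm (𝓞 F) 𝔞 = Ideal.span {z}) : psi M φ₀ 𝔞 = φ₀ (z : F) := by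
  have h1 : ∃ z, (3 : 𝓞 F) ∣ z - 1 ∧ Ideal.relNorm (𝓞 F) 𝔞 = Ideal.span {z} := ⟨z, hz, h⟩
  unfold psi
  rw [dif_pos h1]
  have h2 := h1.choose_spec
  rw [prim_unique he h2.1 hz (h2.2.symm.trans h)]

omit he in
lemma prim_mul {x y : 𝓞 F} (hx : (3 : 𝓞 F) ∣ x - 1) (hy : (3 : 𝓞 F) ∣ y - 1) :
    (3 : 𝓞 F) ∣ x * y - 1 := by
  have : x * y - 1 = (x - 1) * y + (y - 1) := by ring
  rw [this]
  exact dvd_add (hx.mul_right _) hy

omit he in
lemma prim_pow {x : 𝓞 F} (hx : (3 : 𝓞 F) ∣ x - 1) (n : ℕ) : (3 : 𝓞 F) ∣ x ^ n - 1 := by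
  induction n with
  | zero => rw [pow_zero, sub_self]; exact dvd_zero _
  | succ n ih => rw [pow_succ]; exact prim_mul ih hx

/-- **the Hecke character of `y² = x³ + 16`** -/
theorem isChar_eis (φ₀ : F →+* ℂ) :
    IsChar (0 : 𝓞 M) 16 (Ideal.span {(3 : 𝓞 M)}) (Ph M φ₀) (psi M φ₀) where
  typ := by
    intro φ
    rw [mem_Ph, mem_Ph]
    have h1 : ((starRingEnd ℂ).comp φ).comp (algebraMap F M) =
      (starRingEnd ℂ).comp (φ.comp (algebraMap F M)) := rfl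
    rw [h1]
    have h2 := typ_single he φ₀ (φ.comp (algebraMap F M))
    rwa [Finset.mem_singleton, Finset.mem_singleton] at h2
  mul := by
    intro 𝔞 𝔟 h𝔞 h𝔟
    obtain ⟨x, hx, hx1⟩ := exists_w (F := F) he h𝔞
    obtain ⟨y, hy, hy1⟩ := exists_w (F := F) he h𝔟
    rw [psi_eq he φ₀ hx hx1, psi_eq he φ₀ hy hy1, psi_eq he φ₀ (prim_mul hx hy)]
    · simp
    · rw [map_mul, hx1, hy1, Ideal.span_singleton_mul_span_singleton]
  ray := by
    intro x hx
    rw [Ideal.mem_span_singleton] at hx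
    rw [psi_eq he φ₀ (norm_sub_one3 F x hx), emb_norm]
    rw [Ideal.relNorm_singleton, Algebra.intNorm_eq_norm]
  count := by
    intro 𝔭 hpr hbot hc h2𝔭
    have hmax : 𝔭.IsMaximal := hpr.isMaximal hbot
    -- the prime of `F` below
    have : (𝔭.under (𝓞 F)).IsPrime := inferInstance
    have hbot₀ : 𝔭.under (𝓞 F) ≠ ⊥ := Ideal.under_ne_bot _ hbot
    obtain ⟨a, ha, b, hb, hab⟩ := Ideal.isCoprime_iff_exists.1 hc
    have hNa : Algebra.norm (𝓞 F) a ∈ 𝔭.under (𝓞 F) := by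
      have h4 := Ideal.norm_mem_relNorm (𝓞 F) 𝔭 ha
      have h5 : Ideal.relNorm (𝓞 F) 𝔭 ≤ 𝔭.under (𝓞 F) := by
        have : 𝔭.LiesOver (𝔭.under (𝓞 F)) := ⟨rfl⟩
        have h6 : (𝔭.under (𝓞 F)).IsMaximal := Ideal.IsPrime.isMaximal inferInstance hbot₀
        rw [Ideal.relNorm_eq_pow_of_isMaximal 𝔭 (𝔭.under (𝓞 F))]
        exact Ideal.pow_le_self (Ideal.inertiaDeg_pos _ _).ne'
      exact h5 h4
    obtain ⟨z, hz, hz𝔭⟩ := exists_prim_gen he (𝔭.under (𝓞 F)) hNa (norm_sub_one3 F a (by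
      rw [← Ideal.mem_span_singleton]
      have : a - 1 = -b := by rw [← hab]; ring
      rw [this, Ideal.neg_mem_iff]
      exact hb))
    have hz0 : z ≠ 0 := by
      rintro rfl
      rw [Ideal.span_singleton_eq_bot.2 rfl] at hz𝔭
      exact hbot₀ hz𝔭
    have hlo : 𝔭.LiesOver (Ideal.span {z}) := ⟨hz𝔭.symm⟩
    have hzp : Prime z := by
      rw [← Ideal.span_singleton_prime hz0, ← hz𝔭]
      infer_instance
    have hprz : (Ideal.span {z}).IsPrime := (Ideal.span_singleton_prime hz0).2 hzp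
    have hbotz : Ideal.span {z} ≠ ⊥ := by
      rw [Ne, Ideal.span_singleton_eq_bot]
      exact hz0
    have hmaxz : (Ideal.span {z}).IsMaximal := hprz.isMaximal hbotz
    -- the residue fields
    let _ : Field (𝓞 F ⧸ Ideal.span {z}) := Ideal.Quotient.field _
    let _ : Field (𝓞 M ⧸ 𝔭) := Ideal.Quotient.field _
    have : Finite (𝓞 F ⧸ Ideal.span {z}) := Ideal.finiteQuotientOfFreeOfNeBot _ hbotz
    have : Finite (𝓞 M ⧸ 𝔭) := Ideal.finiteQuotientOfFreeOfNeBot _ hbot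
    have hqF : Nat.card (𝓞 F ⧸ Ideal.span {z}) = Ideal.absNorm (Ideal.span {z}) := by
      rw [Ideal.absNorm_apply, Submodule.cardQuot_apply]
    have hqM : Nat.card (𝓞 M ⧸ 𝔭) = Ideal.absNorm 𝔭 := by
      rw [Ideal.absNorm_apply, Submodule.cardQuot_apply]
    have h2M : (2 : 𝓞 M) ∉ 𝔭 := fun h => h2𝔭 (𝔭.mul_mem_right _ h)
    have h2 : (2 : 𝓞 F ⧸ Ideal.span {z}) ≠ 0 := by
      intro h
      apply h2M
      have h4 : (2 : 𝓞 F) ∈ 𝔭.under (𝓞 F) := by
        rw [hz𝔭, ← Ideal.Quotient.eq_zero_iff_mem, map_ofNat]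
        exact h
      have h5 : algebraMap (𝓞 F) (𝓞 M) 2 ∈ 𝔭 := h4
      rwa [map_ofNat] at h5
    have h3 : (3 : 𝓞 F ⧸ Ideal.span {z}) ≠ 0 := by
      intro h
      have h4 : z ∣ 3 := by
        rw [← Ideal.mem_span_singleton, ← Ideal.Quotient.eq_zero_iff_mem, map_ofNat]
        exact h
      have h5 : z ∣ z - 1 := h4.trans hz
      have h6 : z ∣ 1 := by
        have := dvd_sub (dvd_refl z) h5
        rwa [sub_sub_cancel] at this
      exact hzp.not_isUnit (isUnit_of_dvd_one h6)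
    have hchar : ringChar (𝓞 F ⧸ Ideal.span {z}) ≠ 2 := by
      intro h
      apply h2
      have := CharP.cast_eq_zero (𝓞 F ⧸ Ideal.span {z}) (ringChar (𝓞 F ⧸ Ideal.span {z}))
      rw [h] at this
      exact_mod_cast this
    have hD : 4 * (0 : 𝓞 F ⧸ Ideal.span {z}) ^ 3 + 27 * (16 : 𝓞 F ⧸ Ideal.span {z}) ^ 2 ≠ 0 := by
      have e : 4 * (0 : 𝓞 F ⧸ Ideal.span {z}) ^ 3 + 27 * (16 : 𝓞 F ⧸ Ideal.span {z}) ^ 2 =
        3 ^ 3 * 2 ^ 8 := by norm_num
      rw [e]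
      exact mul_ne_zero (pow_ne_zero _ h3) (pow_ne_zero _ h2)
    have hext := points_ext' hchar (0 : 𝓞 F ⧸ Ideal.span {z}) 16 hD (k := 𝓞 M ⧸ 𝔭)
    rw [map_zero, map_ofNat] at hext
    have hbase := base_count he φ₀ hzp hz h2
    obtain ⟨f, hf⟩ : ∃ f, f = Module.finrank (𝓞 F ⧸ Ideal.span {z}) (𝓞 M ⧸ 𝔭) := ⟨_, rfl⟩
    have hcard : Ideal.absNorm 𝔭 = Ideal.absNorm (Ideal.span {z}) ^ f := by
      rw [← hqM, ← hqF, hf]
      exact Module.natCard_eq_pow_finrank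
    have hrel := Ideal.relNorm_eq_pow_of_isMaximal 𝔭 (Ideal.span {z})
    have hf2 : 𝔭.inertiaDeg (𝓞 F) = f := by
      have h4 : Ideal.absNorm (Ideal.relNorm (𝓞 F) 𝔭) = Ideal.absNorm 𝔭 :=
        Ideal.absNorm_relNorm ..
      rw [hrel, map_pow, hcard] at h4
      refine Nat.pow_right_injective ?_ h4
      rw [← hqF]
      exact Finite.one_lt_card
    rw [hf2, Ideal.span_singleton_pow] at hrel
    rw [psi_eq he φ₀ (prim_pow hz f) hrel]
    rw [map_zero, map_ofNat, ← hqM, hext, ← hf]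
    have hmul : φ₀ (z : F) * (starRingEnd ℂ) (φ₀ (z : F)) =
        ((Nat.card (𝓞 F ⧸ Ideal.span {z}) : ℤ) : ℂ) := by
      rw [Complex.mul_conj, Complex.normSq_eq_norm_sq, norm_sq_eq he φ₀, hqF]
      push_cast
      rfl
    rw [luc_eq hbase.symm hmul]
    simp

end

/-- every number field with a primitive cube root of unity -/
theorem exists_char_eis {M : Type} [Field M] [NumberField M] (ω : 𝓞 M) (hω : ω ^ 2 + ω + 1 = 0) :
    ∃ (Φ : Finset (M →+* ℂ)) (ψ : Ideal (𝓞 M) → ℂ),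
      IsChar (0 : 𝓞 M) 16 (Ideal.span {(3 : 𝓞 M)}) Φ ψ := by
  have hω3 : ω ^ 3 = 1 := by linear_combination (ω - 1) * hω
  have hω1 : ω ≠ 1 := by
    rintro rfl
    norm_num at hω
  have hprim : IsPrimitiveRoot ω 3 := by
    have h1 := orderOf_eq_prime hω3 hω1
    have h2 := IsPrimitiveRoot.orderOf ω
    rwa [h1] at h2
  have hprim' : IsPrimitiveRoot (ω : M) 3 :=
    hprim.map_of_injective (f := algebraMap (𝓞 M) M) RingOfIntegers.coe_injective
  have hcyc : IsCyclotomicExtension {3} ℚ (IntermediateField.adjoin ℚ {(ω : M)}) := by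
    convert! hprim'.intermediateField_adjoin_isCyclotomicExtension ℚ
  have hpid : IsPrincipalIdealRing (𝓞 (IntermediateField.adjoin ℚ {(ω : M)})) :=
    IsCyclotomicExtension.Rat.three_pid _
  have hz := IsCyclotomicExtension.zeta_spec 3 ℚ (IntermediateField.adjoin ℚ {(ω : M)})
  obtain ⟨φ₀⟩ : Nonempty ((IntermediateField.adjoin ℚ {(ω : M)}) →+* ℂ) := inferInstance
  exact ⟨_, _, isChar_eis (M := M) hz.toInteger_isPrimitiveRoot φ₀⟩

end Pool.Agent.Helper13.CM.Eis
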