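import Pool.Graph.R_pool_sql_team_seeded_63374d34.N492.CZ.G2
import Pool.Graph.R_pool_sql_team_seeded_63374d34.N784.CZ.Ran
import Pool.Agent.Helper13.CM.Char

/-!
The Hecke character of `y² = x³ - x` over a number field containing `i` (from the library).
-/

set_option autoImplicit false
set_option linter.unusedSectionVars false
set_option linter.style.haveILetI false

open NumberField IsDedekindDomain Complex

namespace Pool.Agent.Helper13.CM.Gau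

open Pool.Agent.Y773.G (cj cj_cj cj_apply)
open Pool.Agent.Y767 (Mq Mq_cop Mq_ne_bot)
open Pool.Agent.Y773.IQ (ne_zero_of_cop cop_one absNorm_pos')
open Pool.Agent.N784.AD (T1 T1_one T1_tp T1_cop pi1 pi1_coe)
open Pool.Agent.N784.HC (Dn ph phT phT_coe CTyp coe_ne)
open Pool.Agent.N784.CZ (tyi le_ne_top)
open Pool.Agent.H304R3.HK (tc tc_ne_zero tc_star_mul)
open H385 (nrm ZI)
open Pool.Agent.W164.RC (Ip Ip_spec Ip_exists dg aD_roots)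
open Pool.Agent.H82R3.EK (luc luc_eq)
open Pool.Agent.H921R2.TatePole (below deg nm nm_eq)
open Pool.Agent.N833.CZ (two_mem)

section
variable {M : Type} [Field M] [NumberField M] (ι₀ : GaussianInt →+* 𝓞 M)

open Classical in
/-- the embeddings which send `i` to `i` -/
noncomputable def Ph : Finset (M →+* ℂ) :=
  Finset.univ.filter (fun φ => φ ((ι₀ ⟨0, 1⟩ : 𝓞 M) : M) = Complex.I)

lemma mem_Ph (φ : M →+* ℂ) : φ ∈ Ph ι₀ ↔ φ ((ι₀ ⟨0, 1⟩ : 𝓞 M) : M) = Complex.I := by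
  unfold Ph
  simp

lemma ty_Ph : ty (Ph ι₀) = tyi ι₀ := by
  classical
  funext φ
  unfold ty tyi
  by_cases h : φ ((ι₀ ⟨0, 1⟩ : 𝓞 M) : M) = Complex.I
  · rw [if_pos h, if_pos ((mem_Ph ι₀ φ).2 h)]
  · rw [if_neg h, if_neg (fun h1 => h ((mem_Ph ι₀ φ).1 h1))]

lemma i_sq (φ : M →+* ℂ) : (φ ((ι₀ ⟨0, 1⟩ : 𝓞 M) : M)) ^ 2 = -1 := by
  have h1 : ι₀ ⟨0, 1⟩ ^ 2 = -1 := by
    rw [← map_pow]
    have : (⟨0, 1⟩ : GaussianInt) ^ 2 = -1 := by decide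
    rw [this, map_neg, map_one]
  have h2 := congrArg (fun x : 𝓞 M => φ (x : M)) h1
  simpa using h2

lemma typ_Ph (φ : M →+* ℂ) : φ ∈ Ph ι₀ ↔ (starRingEnd ℂ).comp φ ∉ Ph ι₀ := by
  rw [mem_Ph, mem_Ph]
  have h1 : ((starRingEnd ℂ).comp φ) ((ι₀ ⟨0, 1⟩ : 𝓞 M) : M) =
    (starRingEnd ℂ) (φ ((ι₀ ⟨0, 1⟩ : 𝓞 M) : M)) := rfl
  rw [h1]
  constructor
  · intro h
    rw [h, Complex.conj_I]
    intro h2
    have := congrArg Complex.im h2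
    norm_num at this
  · intro h
    have h2 : (φ ((ι₀ ⟨0, 1⟩ : 𝓞 M) : M) - Complex.I) *
        (φ ((ι₀ ⟨0, 1⟩ : 𝓞 M) : M) + Complex.I) = 0 := by
      have : (φ ((ι₀ ⟨0, 1⟩ : 𝓞 M) : M) - Complex.I) * (φ ((ι₀ ⟨0, 1⟩ : 𝓞 M) : M) + Complex.I) =
        (φ ((ι₀ ⟨0, 1⟩ : 𝓞 M) : M)) ^ 2 - Complex.I ^ 2 := by ring
      rw [this, i_sq, Complex.I_sq, sub_self]
    rcases mul_eq_zero.1 h2 with h3 | h3
    · exact sub_eq_zero.1 h3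
    · exfalso
      apply h
      have : φ ((ι₀ ⟨0, 1⟩ : 𝓞 M) : M) = -Complex.I := eq_neg_of_add_eq_zero_left h3
      rw [this, map_neg, Complex.conj_I, neg_neg]

/-- the value at a prime -/
lemma sqrt_norm {z : ZI} {g n : ℕ} (h : n = nrm z ^ g) (hz : z ≠ 0) :
    (tc z / (‖tc z‖ : ℂ)) ^ g * ((Real.sqrt n : ℝ) : ℂ) = tc z ^ g := by
  have h1 : ((nrm z : ℕ) : ℝ) = ‖tc z‖ ^ 2 := by
    have h2 := tc_star_mul z
    have h5 : z.norm = ((nrm z : ℕ) : ℤ) := (GaussianInt.abs_natCast_norm z).symm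
    rw [h5] at h2
    rw [h2]
    push_cast
    rfl
  have h2 : Real.sqrt n = ‖tc z‖ ^ g := by
    rw [h]
    push_cast
    rw [h1, ← pow_mul, mul_comm, pow_mul, Real.sqrt_sq (by positivity)]
  have h3 : ((‖tc z‖ : ℝ) : ℂ) ≠ 0 := by
    rw [Complex.ofReal_ne_zero, norm_ne_zero_iff]
    exact tc_ne_zero hz
  rw [h2, Complex.ofReal_pow, ← mul_pow, div_mul_cancel₀ _ h3]

/-- **the Hecke character of `y² = x³ - x`** -/
theorem exists_char : ∃ ψ : Ideal (𝓞 M) → ℂ,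
    IsChar (-1 : 𝓞 M) 0 (Ideal.span {ι₀ ⟨2, 2⟩}) (Ph ι₀) ψ := by
  classical
  obtain ⟨𝔮, h𝔮⟩ : ∃ 𝔮 : Ideal (𝓞 M), 𝔮 = Ideal.span {ι₀ ⟨2, 2⟩} := ⟨_, rfl⟩
  have hle : 𝔮 ≤ Ideal.span {ι₀ ⟨2, 2⟩} := h𝔮.le
  have htop : 𝔮 ≠ ⊤ := le_ne_top ι₀ hle
  have hbot : 𝔮 ≠ ⊥ := by
    rw [h𝔮, Ne, Ideal.span_singleton_eq_bot]
    intro h0
    have h1 : ι₀ ⟨2, 2⟩ * ι₀ ⟨2, -2⟩ = 8 := by
      rw [← map_mul]
      have : (⟨2, 2⟩ * ⟨2, -2⟩ : GaussianInt) = 8 := by decide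
      rw [this, map_ofNat]
    rw [h0, zero_mul] at h1
    have : (8 : 𝓞 M) ≠ 0 := by norm_num
    exact this h1.symm
  obtain ⟨F, hF, hFp⟩ := Pool.Agent.N492.CZ.t_char M ι₀ 𝔮 hbot htop hle
  rw [← h𝔮]
  refine ⟨fun 𝔞 => if h : IsCoprime 𝔞 𝔮 then ((F ⟨𝔞, h⟩ : ℂˣ) : ℂ) *
    ((Real.sqrt (Ideal.absNorm 𝔞) : ℝ) : ℂ) else 0, typ_Ph ι₀, ?_, ?_, ?_⟩
  · intro 𝔞 𝔟 h𝔞 h𝔟
    have h1 : IsCoprime (𝔞 * 𝔟) 𝔮 := IsCoprime.mul_left h𝔞 h𝔟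
    simp only [dif_pos h𝔞, dif_pos h𝔟, dif_pos h1]
    have h2 : (⟨𝔞 * 𝔟, h1⟩ : Mq 𝔮) = ⟨𝔞, h𝔞⟩ * ⟨𝔟, h𝔟⟩ := rfl
    rw [h2, map_mul, map_mul, Nat.cast_mul, Real.sqrt_mul (Nat.cast_nonneg _)]
    push_cast
    ring
  · intro x hx
    have hc : IsCoprime (Ideal.span {x}) 𝔮 := cop_one hx
    simp only [dif_pos hc]
    have htp : Pool.Agent.Y773.TPos M x := tpos_of_typ (typ_Ph ι₀) x
    have h1 := hF ⟨x, hx, htp⟩
    have h2 : pi1 htop ⟨x, hx, htp⟩ = (⟨Ideal.span {x}, hc⟩ : Mq 𝔮) := rfl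
    rw [h2] at h1
    rw [h1, phT_coe]
    change ph (tyi ι₀) (x : M) * _ = _
    rw [← ty_Ph, ph_ty, ← norm_prod_sq (typ_Ph ι₀) x, Real.sqrt_sq (norm_nonneg _), norm_prod]
    push_cast
    rw [← Finset.prod_mul_distrib]
    refine Finset.prod_congr rfl fun φ _ => ?_
    have h3 : ((‖φ (x : M)‖ : ℝ) : ℂ) ≠ 0 := by
      rw [Complex.ofReal_ne_zero, norm_ne_zero_iff]
      exact (map_ne_zero φ).mpr (coe_ne (ne_zero_of_cop htop hc))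
    rw [div_mul_cancel₀ _ h3]
  · intro 𝔭 hpr hbp hc h2p
    simp only [dif_pos hc]
    obtain ⟨v, hv⟩ : ∃ v : HeightOneSpectrum (𝓞 M), v.asIdeal = 𝔭 := ⟨⟨𝔭, hpr, hbp⟩, rfl⟩
    have h2M : (2 : 𝓞 M) ∉ 𝔭 := fun h => h2p (𝔭.mul_mem_right _ h)
    have hpm := (nm_eq v).2.2
    rw [hv] at hpm
    have hp2 : (below v : ℕ) ≠ 2 := by
      intro h
      rw [h] at hpm
      exact h2M (by exact_mod_cast hpm)
    obtain ⟨z, hz, hzp⟩ := Ip_exists (below v).2 hp2 ι₀ 𝔭 hpm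
    obtain ⟨g, hg0, hg1, hg2⟩ := hFp 𝔭 hpr hbp hc (below v) z hz hzp
    obtain ⟨-, hzpr, hnz, -⟩ := Ip_spec (below v).2 hz
    rw [hg2, sqrt_norm hg1 hzpr.ne_zero]
    have hv' : ¬ (below v : ℕ) ∣ 2 * 1 := by
      rw [mul_one, Nat.prime_dvd_prime_iff_eq (below v).2 Nat.prime_two]
      exact hp2
    have htr := Pool.Agent.H82R3.EK.trace_good (D := 1) v hv'
    have hdeg : deg v = dg (below v) * g := by
      have h1 := (nm_eq v).1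
      unfold Pool.Agent.H921R2.TatePole.nm at h1
      rw [hv, hg1, hnz, ← pow_mul] at h1
      exact (Nat.pow_right_injective (below v).2.two_le h1).symm
    obtain ⟨α, β, h3, h4, h5, h6⟩ := aD_roots (below v).2 hp2 hz
    have h7 := luc_eq h3 h4 (deg v)
    have h8 : (npts (Ideal.Quotient.mk 𝔭 (-1)) (Ideal.Quotient.mk 𝔭 0) : ℤ) =
        (Nat.card {x : (𝓞 M ⧸ v.asIdeal) × (𝓞 M ⧸ v.asIdeal) //
          x.2 ^ 2 = x.1 ^ 3 - ((1 : ℕ) : 𝓞 M ⧸ v.asIdeal) ^ 2 * x.1} : ℤ) := by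
      subst hv
      unfold npts
      congr 1
      apply Nat.card_congr
      refine Equiv.subtypeEquivRight (fun x => ?_)
      rw [map_neg, map_one, map_zero, Nat.cast_one, one_pow]
      constructor
      · intro h; linear_combination h
      · intro h; linear_combination h
    rw [h8]
    rw [← hv, htr, h7, hdeg, pow_mul, pow_mul, h5, h6, map_pow, Pool.Agent.N833.CZ.tc_star']

end

/-- every number field with a square root of `-1` -/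
theorem exists_char_gau {M : Type} [Field M] [NumberField M] (i : 𝓞 M) (hi : i ^ 2 + 1 = 0) :
    ∃ (Φ : Finset (M →+* ℂ)) (ψ : Ideal (𝓞 M) → ℂ),
      IsChar (-1 : 𝓞 M) 0 (Ideal.span {2 + 2 * i}) Φ ψ := by
  have h1 : i * i = ((-1 : ℤ) : 𝓞 M) := by push_cast; linear_combination hi
  obtain ⟨ι₀, hι₀⟩ : ∃ ι₀ : GaussianInt →+* 𝓞 M, ι₀ = Zsqrtd.lift ⟨i, h1⟩ := ⟨_, rfl⟩
  have h2 : ι₀ ⟨2, 2⟩ = 2 + 2 * i := by
    rw [hι₀, Zsqrtd.lift_apply_apply]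
    push_cast
    ring
  obtain ⟨ψ, hψ⟩ := exists_char ι₀
  rw [h2] at hψ
  exact ⟨_, _, hψ⟩

end Pool.Agent.Helper13.CM.Gau
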