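import Pool.Agent.Helper13.CM.Glue

/-!
The trace of Frobenius of `E` at a place `v` of `K` from the value of the Hecke character of `M` at
the prime of `M` below `v`.
-/

set_option autoImplicit false
set_option linter.unusedSectionVars false
set_option linter.style.haveILetI false

open NumberField IsDedekindDomain Complex

namespace Pool.Agent.Helper13.CM

open Pool.Agent.Y773.IQ (cop_mono)
open Pool.Agent.N833.CZ (bM bM_iff)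
open Pool.Agent.H921R2.TatePole (below deg nm nm_eq two_le_nm)
open Pool.Agent.H82R3.EK (luc luc_eq)

section
variable {M : Type} [Field M] [NumberField M] {K : Type} [Field K] [NumberField K]
  {A B : 𝓞 M} {𝔣 : Ideal (𝓞 M)} {Φ : Finset (M →+* ℂ)} {ψ : Ideal (𝓞 M) → ℂ}

theorem trace_eq (HC : IsChar A B 𝔣 Φ ψ) {𝔮 : Ideal (𝓞 M)} (hq : 𝔮 ≤ 𝔣) (hbot : 𝔮 ≠ ⊥)
    (htop : 𝔮 ≠ ⊤) (ι : 𝓞 M →+* 𝓞 K) (v : HeightOneSpectrum (𝓞 K))
    (hc : IsCoprime (v.asIdeal.comap ι) 𝔮)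
    (hv : 2 * ι (4 * A ^ 3 + 27 * B ^ 2) ∉ v.asIdeal) :
    (((Ideal.absNorm v.asIdeal : ℤ) - (npts (Ideal.Quotient.mk v.asIdeal (ι A))
      (Ideal.Quotient.mk v.asIdeal (ι B)) : ℤ) : ℤ) : ℂ) =
      bet ψ ι v + (starRingEnd ℂ) (bet ψ ι v) := by
  obtain ⟨𝔭, h𝔭⟩ : ∃ 𝔭 : Ideal (𝓞 M), 𝔭 = v.asIdeal.comap ι := ⟨_, rfl⟩
  have hb := (bM ι v).2
  have hpr : 𝔭.IsPrime := by rw [h𝔭]; exact Ideal.isPrime_of_prime hb
  have hpb : 𝔭 ≠ ⊥ := by rw [h𝔭]; exact hb.ne_zero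
  have hmax : 𝔭.IsMaximal := hpr.isMaximal hpb
  have hvmax : v.asIdeal.IsMaximal := v.isPrime.isMaximal v.ne_bot
  have h2 : 2 * (4 * A ^ 3 + 27 * B ^ 2) ∉ 𝔭 := by
    rw [h𝔭, Ideal.mem_comap, map_mul, map_ofNat]
    exact hv
  rw [← h𝔭] at hc
  have hcount := HC.count 𝔭 hpr hpb (cop_mono hq hc) h2
  let _ : Field (𝓞 M ⧸ 𝔭) := Ideal.Quotient.field _
  let _ : Field (𝓞 K ⧸ v.asIdeal) := Ideal.Quotient.field _
  have : Finite (𝓞 M ⧸ 𝔭) := Ideal.finiteQuotientOfFreeOfNeBot _ hpb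
  have : Finite (𝓞 K ⧸ v.asIdeal) := Ideal.finiteQuotientOfFreeOfNeBot _ v.ne_bot
  let _ : Algebra (𝓞 M ⧸ 𝔭) (𝓞 K ⧸ v.asIdeal) :=
    (Ideal.quotientMap v.asIdeal ι h𝔭.le).toAlgebra
  have hmap : ∀ x : 𝓞 M, algebraMap (𝓞 M ⧸ 𝔭) (𝓞 K ⧸ v.asIdeal) (Ideal.Quotient.mk 𝔭 x) =
      Ideal.Quotient.mk v.asIdeal (ι x) := fun x => Ideal.quotientMap_mk
  have hqM : Nat.card (𝓞 M ⧸ 𝔭) = Ideal.absNorm 𝔭 := by
    rw [Ideal.absNorm_apply, Submodule.cardQuot_apply]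
  have hqK : Nat.card (𝓞 K ⧸ v.asIdeal) = Ideal.absNorm v.asIdeal := by
    rw [Ideal.absNorm_apply, Submodule.cardQuot_apply]
  have h2' : (2 : 𝓞 M ⧸ 𝔭) ≠ 0 := by
    intro h
    apply h2
    apply 𝔭.mul_mem_right
    rw [← Ideal.Quotient.eq_zero_iff_mem, map_ofNat]
    exact h
  have hchar : ringChar (𝓞 M ⧸ 𝔭) ≠ 2 := by
    intro h
    apply h2'
    have := CharP.cast_eq_zero (𝓞 M ⧸ 𝔭) (ringChar (𝓞 M ⧸ 𝔭))
    rw [h] at this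
    exact_mod_cast this
  have hD : 4 * (Ideal.Quotient.mk 𝔭 A) ^ 3 + 27 * (Ideal.Quotient.mk 𝔭 B) ^ 2 ≠ 0 := by
    intro h
    apply h2
    apply 𝔭.mul_mem_left
    rw [← Ideal.Quotient.eq_zero_iff_mem, map_add, map_mul, map_mul, map_pow, map_pow, map_ofNat,
      map_ofNat]
    exact h
  have hext := points_ext' hchar (Ideal.Quotient.mk 𝔭 A) (Ideal.Quotient.mk 𝔭 B) hD
    (k := 𝓞 K ⧸ v.asIdeal)
  rw [hmap, hmap, hqM, hqK] at hext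
  obtain ⟨f, hf⟩ : ∃ f, f = Module.finrank (𝓞 M ⧸ 𝔭) (𝓞 K ⧸ v.asIdeal) := ⟨_, rfl⟩
  have hcard : Ideal.absNorm v.asIdeal = Ideal.absNorm 𝔭 ^ f := by
    rw [← hqM, ← hqK, hf]
    exact Module.natCard_eq_pow_finrank
  have hfd : fd ι v = f := fd_eq (by rw [← h𝔭]; exact hcard)
  have hmul : ψ 𝔭 * (starRingEnd ℂ) (ψ 𝔭) = ((Ideal.absNorm 𝔭 : ℤ) : ℂ) := by
    rw [Complex.mul_conj, Complex.normSq_eq_norm_sq, HC.norm_sq hq hbot htop hc]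
    push_cast
    rfl
  rw [hext, ← hf, luc_eq hcount.symm hmul]
  unfold bet
  rw [← h𝔭, hfd, map_pow]

/-- the same for an isomorphic curve over `K` -/
theorem trace_eq' (HC : IsChar A B 𝔣 Φ ψ) {𝔮 : Ideal (𝓞 M)} (hq : 𝔮 ≤ 𝔣) (hbot : 𝔮 ≠ ⊥)
    (htop : 𝔮 ≠ ⊤) (ι : 𝓞 M →+* 𝓞 K) (v : HeightOneSpectrum (𝓞 K))
    (hc : IsCoprime (v.asIdeal.comap ι) 𝔮) {A' B' u w : 𝓞 K}
    (hA : w ^ 4 * A' = u ^ 4 * ι A) (hB : w ^ 6 * B' = u ^ 6 * ι B)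
    (hv : 2 * ι (4 * A ^ 3 + 27 * B ^ 2) * (u * w) ∉ v.asIdeal) :
    (((Ideal.absNorm v.asIdeal : ℤ) - (npts (Ideal.Quotient.mk v.asIdeal A')
      (Ideal.Quotient.mk v.asIdeal B') : ℤ) : ℤ) : ℂ) =
      bet ψ ι v + (starRingEnd ℂ) (bet ψ ι v) := by
  have hvmax : v.asIdeal.IsMaximal := v.isPrime.isMaximal v.ne_bot
  let _ : Field (𝓞 K ⧸ v.asIdeal) := Ideal.Quotient.field _
  have hu : Ideal.Quotient.mk v.asIdeal u ≠ 0 := by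
    intro h
    rw [Ideal.Quotient.eq_zero_iff_mem] at h
    exact hv (v.asIdeal.mul_mem_left _ (v.asIdeal.mul_mem_right _ h))
  have hw : Ideal.Quotient.mk v.asIdeal w ≠ 0 := by
    intro h
    rw [Ideal.Quotient.eq_zero_iff_mem] at h
    exact hv (v.asIdeal.mul_mem_left _ (v.asIdeal.mul_mem_left _ h))
  rw [← trace_eq HC hq hbot htop ι v hc (fun h => hv (v.asIdeal.mul_mem_right _ h))]
  have h1 := congrArg (Ideal.Quotient.mk v.asIdeal) hA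
  have h2 := congrArg (Ideal.Quotient.mk v.asIdeal) hB
  rw [map_mul, map_mul, map_pow, map_pow] at h1 h2
  have h3 : Ideal.Quotient.mk v.asIdeal A' =
      (Ideal.Quotient.mk v.asIdeal u / Ideal.Quotient.mk v.asIdeal w) ^ 4 *
        Ideal.Quotient.mk v.asIdeal (ι A) := by
    field_simp
    linear_combination h1
  have h4 : Ideal.Quotient.mk v.asIdeal B' =
      (Ideal.Quotient.mk v.asIdeal u / Ideal.Quotient.mk v.asIdeal w) ^ 6 *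
        Ideal.Quotient.mk v.asIdeal (ι B) := by
    field_simp
    linear_combination h2
  rw [h3, h4, npts_twist _ _ _ (div_ne_zero hu hw)]

end

end Pool.Agent.Helper13.CM
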